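import Mathlib

/-! Affine (Zhang) energy: definitions and the value for `p = 2`. -/

set_option autoImplicit false

open MeasureTheory Set Filter Topology

namespace Pool.Agent.K1H92.AZS

/-- Euclidean space `ℝ^n` -/
abbrev E (n : ℕ) := EuclideanSpace ℝ (Fin n)

/-- `ω_k = π^{k/2} / Γ(1 + k/2)` -/
noncomputable def omega (k : ℝ) : ℝ := Real.pi ^ (k / 2) / Real.Gamma (1 + k / 2)

/-- the constant `c_{n,p}` -/
noncomputable def cnp (n : ℕ) (p : ℝ) : ℝ :=
  (n * omega n * omega (p - 1) / (2 * omega (n + p - 2))) ^ (1 / p) *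
    (n * omega n) ^ (1 / (n : ℝ))

/-- `(∫ |⟨g(x), ξ⟩|^p dx)^{1/p}`; for `g = ∇f` this is `‖∇_ξ f‖_p` -/
noncomputable def dirNorm {n : ℕ} (p : ℝ) (g : E n → E n) (ξ : E n) : ℝ :=
  (∫ x, |inner ℝ (g x) ξ| ^ p) ^ (1 / p)

/-- the affine energy of a vector field; for `g = ∇f` this is `𝓔_p f` -/
noncomputable def energy {n : ℕ} (p : ℝ) (g : E n → E n) : ℝ :=
  cnp n p * (∫ ξ : Metric.sphere (0 : E n) 1, dirNorm p g (ξ : E n) ^ (-(n : ℝ))
    ∂(volume : Measure (E n)).toSphere) ^ (-(1 / (n : ℝ)))

/-- the `L^p` norm `(∫ |u|^p)^{1/p}` of a scalar or vector valued function -/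
noncomputable def lpn {n : ℕ} {V : Type} [NormedAddCommGroup V] (p : ℝ) (u : E n → V) : ℝ :=
  (∫ x, ‖u x‖ ^ p) ^ (1 / p)

/-- `𝓔_p f / (‖f‖_p^{(n-1)/n} ‖∇f‖_p^{1/n})`, with `g` in the place of `∇f` -/
noncomputable def ratio {n : ℕ} (p : ℝ) (f : E n → ℝ) (g : E n → E n) : ℝ :=
  energy p g / (lpn p f ^ (((n : ℝ) - 1) / n) * lpn p g ^ (1 / (n : ℝ)))

/-- `C^1` functions `ℝ^n → ℝ` with support in `Ω` -/
def C1c {n : ℕ} (Ω : Set (E n)) (f : E n → ℝ) : Prop :=
  ContDiff ℝ 1 f ∧ tsupport f ⊆ Ω

/-- the best constant `A_{n,p}(Ω)` -/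
noncomputable def bestA (n : ℕ) (p : ℝ) (Ω : Set (E n)) : ℝ :=
  sInf {r : ℝ | ∃ f : E n → ℝ, C1c Ω f ∧ f ≠ 0 ∧ r = ratio p f (gradient f)}

/-- `f ∈ W^{1,p}_0(Ω)` with weak gradient `g`: `(f, g)` is an `L^p` limit of `(F_k, ∇F_k)`,
`F_k` of class `C^1` with support in `Ω` -/
def W0 {n : ℕ} (p : ℝ) (Ω : Set (E n)) (f : E n → ℝ) (g : E n → E n) : Prop :=
  MemLp f (ENNReal.ofReal p) ∧ MemLp g (ENNReal.ofReal p) ∧
  ∃ F : ℕ → E n → ℝ, (∀ k, C1c Ω (F k)) ∧
    Tendsto (fun k => eLpNorm (fun x => F k x - f x) (ENNReal.ofReal p) volume) atTop (𝓝 0) ∧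
    Tendsto (fun k => eLpNorm (fun x => gradient (F k) x - g x) (ENNReal.ofReal p) volume)
      atTop (𝓝 0)

/-- integral over the sphere in terms of a Gaussian integral -/
theorem lint_polar {n : ℕ} (hn : 1 ≤ n) (q : E n → ℝ)
    (hq : Continuous q) (hpos : ∀ x, x ≠ 0 → 0 < q x)
    (hhom : ∀ (r : ℝ) (x : E n), q (r • x) = r ^ 2 * q x) :
    ∫⁻ x : E n, ENNReal.ofReal (Real.exp (-q x)) =
      ∫⁻ ξ : Metric.sphere (0 : E n) 1,
        ENNReal.ofReal (Real.Gamma (n / 2) / 2 * (q (ξ : E n)) ^ (-((n : ℝ) / 2)))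
          ∂(volume : Measure (E n)).toSphere := by
  have hdim : Module.finrank ℝ (E n) = n := by simp [E]
  have : Nontrivial (E n) := by
    apply Module.nontrivial_of_finrank_pos (R := ℝ); rw [hdim]; omega
  calc ∫⁻ x : E n, ENNReal.ofReal (Real.exp (-q x))
      = ∫⁻ x : ({(0 : E n)}ᶜ : Set (E n)), ENNReal.ofReal (Real.exp (-q x.1))
          ∂((volume : Measure (E n)).comap (↑)) := by
        rw [lintegral_subtype_comap (measurableSet_singleton _).compl
          (fun x => ENNReal.ofReal (Real.exp (-q x))), restrict_compl_singleton]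
    _ = ∫⁻ z, ENNReal.ofReal (Real.exp (-((z.2 : ℝ) ^ 2 * q (z.1 : E n))))
          ∂((volume : Measure (E n)).toSphere.prod
            (.volumeIoiPow (Module.finrank ℝ (E n) - 1))) := by
        have h := (volume : Measure (E n)).measurePreserving_homeomorphUnitSphereProd.lintegral_comp_emb
          (Homeomorph.measurableEmbedding _)
          (fun z : (Metric.sphere (0 : E n) 1) × (Ioi (0 : ℝ)) =>
            ENNReal.ofReal (Real.exp (-((z.2 : ℝ) ^ 2 * q (z.1 : E n)))))
        rw [← h]
        apply lintegral_congr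
        intro x
        simp only [homeomorphUnitSphereProd_apply_snd_coe,
          homeomorphUnitSphereProd_apply_fst_coe]
        congr 3
        rw [← hhom]
        congr 1
        have hx : ‖(x : E n)‖ ≠ 0 := by
          rw [norm_ne_zero_iff]; exact x.2
        rw [smul_smul, mul_inv_cancel₀ hx, one_smul]
    _ = ∫⁻ ξ : Metric.sphere (0 : E n) 1, ∫⁻ r : Ioi (0 : ℝ),
          ENNReal.ofReal (Real.exp (-((r : ℝ) ^ 2 * q (ξ : E n))))
            ∂(.volumeIoiPow (Module.finrank ℝ (E n) - 1)) ∂(volume : Measure (E n)).toSphere := by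
        rw [lintegral_prod]
        apply Measurable.aemeasurable
        apply ENNReal.measurable_ofReal.comp
        apply Real.measurable_exp.comp
        apply Measurable.neg
        apply Measurable.mul
        · exact (measurable_subtype_coe.comp measurable_snd).pow_const 2
        · exact hq.measurable.comp (measurable_subtype_coe.comp measurable_fst)
    _ = _ := by
        apply lintegral_congr
        intro ξ
        have hξ : (ξ : E n) ≠ 0 := by
          intro h
          have := ξ.2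
          rw [h] at this
          simp at this
        have hqξ := hpos _ hξ
        set b := q (ξ : E n) with hb
        rw [Measure.volumeIoiPow, lintegral_withDensity_eq_lintegral_mul _ (by fun_prop) (by fun_prop)]
        simp only [Pi.mul_apply]
        rw [lintegral_subtype_comap measurableSet_Ioi
          (fun r : ℝ => ENNReal.ofReal (r ^ (Module.finrank ℝ (E n) - 1)) *
            ENNReal.ofReal (Real.exp (-(r ^ 2 * b))))]
        have h1 : ∀ r ∈ Ioi (0 : ℝ), ENNReal.ofReal (r ^ (Module.finrank ℝ (E n) - 1)) *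
            ENNReal.ofReal (Real.exp (-(r ^ 2 * b))) =
            ENNReal.ofReal (r ^ ((n : ℝ) - 1) * Real.exp (-b * r ^ (2 : ℝ))) := by
          intro r hr
          have hr0 : (0 : ℝ) < r := hr
          rw [← ENNReal.ofReal_mul (by positivity), hdim]
          congr 2
          · rw [← Real.rpow_natCast]
            congr 1
            rw [Nat.cast_sub hn]; simp
          · congr 1
            rw [Real.rpow_two]; ring
        rw [setLIntegral_congr_fun measurableSet_Ioi h1]
        have hn' : (1 : ℝ) ≤ n := by exact_mod_cast hn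
        have hint := integrableOn_rpow_mul_exp_neg_mul_rpow (p := 2) (s := (n : ℝ) - 1) (b := b)
          (by linarith) (by norm_num) hqξ
        rw [← ofReal_integral_eq_lintegral_ofReal hint ?_]
        · congr 1
          rw [integral_rpow_mul_exp_neg_mul_rpow (by norm_num) (by linarith) hqξ]
          have e1 : -((n : ℝ) - 1 + 1) / 2 = -((n : ℝ) / 2) := by ring
          have e2 : ((n : ℝ) - 1 + 1) / 2 = (n : ℝ) / 2 := by ring
          rw [e1, e2]
          ring
        · filter_upwards [ae_restrict_mem measurableSet_Ioi] with r hr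
          have hr0 : (0 : ℝ) < r := hr
          positivity

end Pool.Agent.K1H92.AZS
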