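import Pool.Agent.K1H92.AZS.Defs

/-! The affine energy for `p = 2`: `𝓔_2 = √n (det M)^{1/(2n)}`. -/

set_option autoImplicit false

open MeasureTheory Set Filter Topology

namespace Pool.Agent.K1H92.AZS

theorem lint_gauss {n : ℕ} (L : E n →ₗ[ℝ] E n) (hL : LinearMap.det L ≠ 0) :
    ∫⁻ x : E n, ENNReal.ofReal (Real.exp (-‖L x‖ ^ 2)) =
      ENNReal.ofReal (Real.pi ^ ((n : ℝ) / 2) / |LinearMap.det L|) := by
  have hdim : Module.finrank ℝ (E n) = n := by simp [E]
  have hcont : Continuous L := L.continuous_of_finiteDimensional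
  have h1 := Measure.map_linearMap_addHaar_eq_smul_addHaar (volume : Measure (E n)) hL
  have h2 : ∫⁻ x : E n, ENNReal.ofReal (Real.exp (-‖L x‖ ^ 2)) =
      ∫⁻ y : E n, ENNReal.ofReal (Real.exp (-‖y‖ ^ 2)) ∂(Measure.map L volume) := by
    rw [lintegral_map (by fun_prop) hcont.measurable]
  rw [h2, h1, lintegral_smul_measure]
  have h3 : ∫⁻ y : E n, ENNReal.ofReal (Real.exp (-‖y‖ ^ 2)) =
      ENNReal.ofReal (Real.pi ^ ((n : ℝ) / 2)) := by
    have h4 := GaussianFourier.integral_rexp_neg_mul_sq_norm (V := E n) (b := 1) one_pos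
    have h5 : Integrable (fun v : E n => Real.exp (-1 * ‖v‖ ^ 2)) := by
      have h6 := GaussianFourier.integrable_cexp_neg_mul_sq_norm_add (V := E n) (b := (1 : ℂ))
        (by simp) 0 0
      have h7 := h6.re
      refine h7.congr ?_
      filter_upwards with v
      have e : (-1 * (‖v‖ : ℂ) ^ 2 + 0 * ((inner ℝ (0 : E n) v : ℝ) : ℂ))
          = ((-1 * ‖v‖ ^ 2 : ℝ) : ℂ) := by push_cast; ring
      rw [e, ← Complex.ofReal_exp]
      exact Complex.ofReal_re _
    simp only [neg_mul, one_mul] at h4 h5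
    rw [← ofReal_integral_eq_lintegral_ofReal h5 (Eventually.of_forall fun _ => (Real.exp_pos _).le),
      h4, hdim]
    simp
  rw [h3, smul_eq_mul, ← ENNReal.ofReal_mul (abs_nonneg _)]
  congr 1
  rw [abs_inv]
  field_simp

theorem sphere_int {n : ℕ} (hn : 1 ≤ n) (L : E n →ₗ[ℝ] E n) (hL : LinearMap.det L ≠ 0) :
    ∫ ξ : Metric.sphere (0 : E n) 1, (‖L (ξ : E n)‖ ^ 2) ^ (-((n : ℝ) / 2))
      ∂(volume : Measure (E n)).toSphere = n * omega n / |LinearMap.det L| := by
  have hcont : Continuous L := L.continuous_of_finiteDimensional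
  have hn' : (0 : ℝ) < n := by exact_mod_cast hn
  have hinj : Function.Injective L := by
    have : IsUnit (LinearMap.det L) := isUnit_iff_ne_zero.mpr hL
    intro x y hxy
    apply (LinearMap.equivOfIsUnitDet this).injective
    rw [LinearMap.equivOfIsUnitDet_apply, LinearMap.equivOfIsUnitDet_apply]
    exact hxy
  have hne : ∀ x : E n, x ≠ 0 → 0 < ‖L x‖ ^ 2 := by
    intro x hx
    have : L x ≠ 0 := by
      intro h
      apply hx
      apply hinj
      rw [h, map_zero]
    positivity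
  have h1 := lint_polar hn (fun x => ‖L x‖ ^ 2) (by fun_prop) hne (by
    intro r x
    simp only [map_smul, norm_smul, mul_pow, Real.norm_eq_abs, sq_abs])
  rw [lint_gauss L hL] at h1
  have hK : 0 < Real.Gamma ((n : ℝ) / 2) / 2 := by
    have := Real.Gamma_pos_of_pos (s := (n : ℝ) / 2) (by positivity)
    positivity
  have hsph : ∀ ξ : Metric.sphere (0 : E n) 1, (ξ : E n) ≠ 0 := by
    intro ξ h
    have := ξ.2
    rw [h] at this
    simp at this
  have hci : Integrable (fun ξ : Metric.sphere (0 : E n) 1 =>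
      Real.Gamma (n / 2) / 2 * (‖L (ξ : E n)‖ ^ 2) ^ (-((n : ℝ) / 2)))
      (volume : Measure (E n)).toSphere := by
    apply Continuous.integrable_of_hasCompactSupport
    · apply Continuous.mul continuous_const
      apply Continuous.rpow_const (by fun_prop)
      intro ξ
      left
      exact (hne _ (hsph ξ)).ne'
    · exact HasCompactSupport.of_compactSpace _
  rw [← ofReal_integral_eq_lintegral_ofReal hci (Eventually.of_forall fun ξ => by
    have := hne _ (hsph ξ); positivity)] at h1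
  have hpi : 0 ≤ Real.pi ^ ((n : ℝ) / 2) / |LinearMap.det L| := by positivity
  have hInn : 0 ≤ ∫ ξ : Metric.sphere (0 : E n) 1,
      Real.Gamma (n / 2) / 2 * (‖L (ξ : E n)‖ ^ 2) ^ (-((n : ℝ) / 2))
      ∂(volume : Measure (E n)).toSphere := by
    apply integral_nonneg
    intro ξ
    have := hne _ (hsph ξ)
    positivity
  have h2 := (ENNReal.ofReal_eq_ofReal_iff hpi hInn).mp h1
  rw [integral_const_mul] at h2
  have h3 : ∫ ξ : Metric.sphere (0 : E n) 1, (‖L (ξ : E n)‖ ^ 2) ^ (-((n : ℝ) / 2))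
      ∂(volume : Measure (E n)).toSphere
      = (Real.Gamma ((n : ℝ) / 2) / 2)⁻¹ * (Real.pi ^ ((n : ℝ) / 2) / |LinearMap.det L|) := by
    rw [h2, ← mul_assoc, inv_mul_cancel₀ hK.ne', one_mul]
  rw [h3, omega]
  have h4 : Real.Gamma (1 + (n : ℝ) / 2) = (n : ℝ) / 2 * Real.Gamma ((n : ℝ) / 2) := by
    rw [add_comm, Real.Gamma_add_one (by positivity)]
  rw [h4]
  have h5 : Real.Gamma ((n : ℝ) / 2) ≠ 0 := by
    intro h; rw [h] at hK; simp at hK
  have h6 : |LinearMap.det L| ≠ 0 := abs_ne_zero.mpr hL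
  field_simp

/-- the matrix `∫ g_i g_j` -/
noncomputable def gram {n : ℕ} (g : E n → E n) : Matrix (Fin n) (Fin n) ℝ :=
  Matrix.of fun i j => ∫ x, g x i * g x j

theorem omega_one : omega 1 = 2 := by
  unfold omega
  have h : Real.Gamma (1 + 1 / 2) = 1 / 2 * Real.Gamma (1 / 2) := by
    rw [add_comm, Real.Gamma_add_one (by norm_num)]
  rw [h, Real.Gamma_one_half_eq, Real.sqrt_eq_rpow]
  have : (0 : ℝ) < Real.pi ^ (1 / 2 : ℝ) := by positivity
  field_simp

theorem omega_pos (n : ℕ) : 0 < omega n := by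
  unfold omega
  have := Real.Gamma_pos_of_pos (s := 1 + (n : ℝ) / 2) (by positivity)
  positivity

theorem cnp_two (n : ℕ) : cnp n 2 = Real.sqrt n * (n * omega n) ^ (1 / (n : ℝ)) := by
  unfold cnp
  have h1 : (2 : ℝ) - 1 = 1 := by norm_num
  have h2 : (n : ℝ) + 2 - 2 = n := by ring
  rw [h1, h2, omega_one, Real.sqrt_eq_rpow]
  have := (omega_pos n).ne'
  congr 2
  field_simp

theorem quad_eq {n : ℕ} (g : E n → E n) (hg : MemLp g 2) (ξ : E n) :
    ∫ x, |inner ℝ (g x) ξ| ^ (2 : ℝ) = ∑ i, ∑ j, ξ i * ξ j * gram g i j := by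
  have hgi : ∀ i, MemLp (fun x => g x i) 2 := by
    intro i
    exact (EuclideanSpace.proj (𝕜 := ℝ) i).comp_memLp' hg
  have h1 : ∀ x, |inner ℝ (g x) ξ| ^ (2 : ℝ) = ∑ i, ∑ j, ξ i * ξ j * (g x i * g x j) := by
    intro x
    rw [Real.rpow_two, sq_abs, PiLp.inner_apply, sq, Finset.sum_mul_sum]
    apply Finset.sum_congr rfl
    intro i _
    apply Finset.sum_congr rfl
    intro j _
    simp only [RCLike.inner_apply, conj_trivial]
    ring
  simp_rw [h1]
  rw [integral_finsetSum]
  · apply Finset.sum_congr rfl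
    intro i _
    rw [integral_finsetSum]
    · apply Finset.sum_congr rfl
      intro j _
      rw [integral_const_mul]
      rfl
    · intro j _
      exact ((hgi i).integrable_mul (hgi j)).const_mul _
  · intro i _
    apply integrable_finsetSum
    intro j _
    exact ((hgi i).integrable_mul (hgi j)).const_mul _

theorem energy_two {n : ℕ} (hn : 1 ≤ n) (g : E n → E n) (hg : MemLp g 2)
    (hM : (gram g).PosDef) :
    energy 2 g = Real.sqrt n * (gram g).det ^ (1 / (2 * (n : ℝ))) := by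
  have hn' : (0 : ℝ) < n := by exact_mod_cast hn
  obtain ⟨B, hB⟩ : ∃ B : Matrix (Fin n) (Fin n) ℝ, gram g = B.conjTranspose * B := by
    open scoped MatrixOrder in
    exact CStarAlgebra.nonneg_iff_eq_star_mul_self.mp hM.posSemidef.nonneg
  have hdet : (gram g).det = B.det ^ 2 := by
    rw [hB, Matrix.det_mul, Matrix.det_conjTranspose]
    simp [sq]
  have hdpos := hM.det_pos
  have hBd : B.det ≠ 0 := by
    intro h
    rw [hdet, h] at hdpos
    simp at hdpos
  set L : E n →ₗ[ℝ] E n := Matrix.toEuclideanLin B with hLdef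
  have hLd : LinearMap.det L = B.det := by
    rw [hLdef, Matrix.toEuclideanLin_eq_toLin, LinearMap.det_toLin]
  have hq : ∀ ξ : E n, ‖L ξ‖ ^ 2 = ∫ x, |inner ℝ (g x) ξ| ^ (2 : ℝ) := by
    intro ξ
    rw [quad_eq g hg ξ, EuclideanSpace.norm_eq, Real.sq_sqrt (by positivity)]
    have h1 : ∀ k, L ξ k = ∑ i, B k i * ξ i := by
      intro k
      rw [hLdef]
      simp [Matrix.toEuclideanLin, Matrix.mulVec, dotProduct]
    simp_rw [h1, Real.norm_eq_abs, sq_abs]
    have h2 : ∀ i j, gram g i j = ∑ k, B k i * B k j := by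
      intro i j
      rw [hB, Matrix.mul_apply]
      simp [Matrix.conjTranspose_apply]
    simp_rw [h2]
    have h3 : ∀ k, (∑ i, B k i * ξ i) ^ 2 = ∑ i, ∑ j, ξ i * ξ j * (B k i * B k j) := by
      intro k
      rw [sq, Finset.sum_mul_sum]
      apply Finset.sum_congr rfl; intro i _
      apply Finset.sum_congr rfl; intro j _
      ring
    simp_rw [h3]
    rw [Finset.sum_comm]
    apply Finset.sum_congr rfl; intro i _
    rw [Finset.sum_comm]
    apply Finset.sum_congr rfl; intro j _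
    rw [Finset.mul_sum]
  have hint := sphere_int hn L (by rw [hLd]; exact hBd)
  have hdir : ∀ ξ : Metric.sphere (0 : E n) 1,
      dirNorm 2 g (ξ : E n) ^ (-(n : ℝ)) = (‖L (ξ : E n)‖ ^ 2) ^ (-((n : ℝ) / 2)) := by
    intro ξ
    unfold dirNorm
    rw [← hq, ← Real.rpow_mul (by positivity)]
    congr 1
    ring
  unfold energy
  simp_rw [hdir]
  rw [hint, cnp_two, hLd]
  have ho : 0 < (n : ℝ) * omega n := mul_pos hn' (omega_pos n)
  have hB0 : 0 < |B.det| := abs_pos.mpr hBd
  rw [Real.div_rpow ho.le hB0.le, hdet]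
  have h1 : (B.det ^ 2) ^ (1 / (2 * (n : ℝ))) = |B.det| ^ (1 / (n : ℝ)) := by
    rw [← sq_abs, ← Real.rpow_two, ← Real.rpow_mul hB0.le]
    congr 1
    field_simp
  rw [h1, Real.rpow_neg ho.le, Real.rpow_neg hB0.le]
  have h2 : ((n : ℝ) * omega n) ^ (1 / (n : ℝ)) ≠ 0 := (Real.rpow_pos_of_pos ho _).ne'
  field_simp

end Pool.Agent.K1H92.AZS
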