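import Pool.Agent.K1H92.AZS.Picone

/-! Limits of quadratic expressions along `L²` convergent sequences, and the inequalities for
elements of `W^{1,2}_0` of a thin planar domain. -/

set_option autoImplicit false

open MeasureTheory Set Filter Topology

namespace Pool.Agent.K1H92.AZS

theorem int3 {n : ℕ} {a b c : E n → ℝ} (ha : Integrable a) (hb : Integrable b)
    (hc : Integrable c) : ∫ x, (a x + b x + c x) = (∫ x, a x) + (∫ x, b x) + ∫ x, c x := by
  have h1 := integral_add (μ := volume) (f := fun x => a x + b x) (g := c) (ha.add hb) hc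
  rw [h1, integral_add ha hb]

theorem tendsto_int_mul {n : ℕ} {u v : E n → ℝ} {U V : ℕ → E n → ℝ} (hu : MemLp u 2)
    (hv : MemLp v 2) (hU : ∀ k, MemLp (U k) 2) (hV : ∀ k, MemLp (V k) 2)
    (h1 : Tendsto (fun k => eLpNorm (fun x => U k x - u x) 2 volume) atTop (𝓝 0))
    (h2 : Tendsto (fun k => eLpNorm (fun x => V k x - v x) 2 volume) atTop (𝓝 0)) :
    Tendsto (fun k => ∫ x, U k x * V k x) atTop (𝓝 (∫ x, u x * v x)) := by
  have t1 := (Lp.tendsto_Lp_iff_tendsto_eLpNorm'' U hU u hu).mpr h1
  have t2 := (Lp.tendsto_Lp_iff_tendsto_eLpNorm'' V hV v hv).mpr h2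
  have t3 := t1.inner (𝕜 := ℝ) t2
  have key : ∀ (a b : E n → ℝ) (ha : MemLp a 2) (hb : MemLp b 2),
      inner ℝ (ha.toLp a) (hb.toLp b) = ∫ x, a x * b x := by
    intro a b ha hb
    rw [L2.inner_def]
    apply integral_congr_ae
    filter_upwards [ha.coeFn_toLp, hb.coeFn_toLp] with x hx hy
    rw [hx, hy]
    simp [mul_comm]
  simp_rw [key] at t3
  exact t3

theorem gradient_inner {n : ℕ} (f : E n → ℝ) (x v : E n) :
    inner ℝ (gradient f x) v = fderiv ℝ f x v := by
  unfold gradient
  exact InnerProductSpace.toDual_symm_apply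

theorem gradient_continuous {n : ℕ} {f : E n → ℝ} (hf : ContDiff ℝ 1 f) :
    Continuous (gradient f) := by
  unfold gradient
  exact (InnerProductSpace.toDual ℝ (E n)).symm.continuous.comp (hf.continuous_fderiv (by norm_num))

theorem gradient_memLp {n : ℕ} {f : E n → ℝ} (hf : ContDiff ℝ 1 f)
    (hK : HasCompactSupport f) (p : ENNReal) : MemLp (gradient f) p := by
  apply (gradient_continuous hf).memLp_of_hasCompactSupport
  have h1 : HasCompactSupport (fderiv ℝ f) := hK.fderiv (𝕜 := ℝ)
  exact h1.comp_left (g := (InnerProductSpace.toDual ℝ (E n)).symm) (map_zero _)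

theorem inner_two (g v : E 2) : inner ℝ g v = v 0 * g 0 + v 1 * g 1 := by
  rw [PiLp.inner_apply, Fin.sum_univ_two]
  simp

theorem coord_memLp {n : ℕ} {g : E n → E n} (hg : MemLp g 2) (i : Fin n) :
    MemLp (fun x => g x i) 2 :=
  (EuclideanSpace.proj (𝕜 := ℝ) i).comp_memLp' hg

/-- the bounded weight, equal to `x_1^2` where `|x_1| ≤ 1` -/
noncomputable def psi (x : E 2) : ℝ := min (x 1 ^ 2) 1

theorem psi_cont : Continuous psi := by
  unfold psi
  fun_prop

theorem psi_nonneg (x : E 2) : 0 ≤ psi x := by unfold psi; positivity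

theorem psi_le (x : E 2) : psi x ≤ 1 := min_le_right _ _

theorem psi_mul_memLp {f : E 2 → ℝ} (hf : MemLp f 2) : MemLp (fun x => psi x * f x) 2 := by
  apply hf.mono
  · exact psi_cont.aestronglyMeasurable.mul hf.1
  · filter_upwards with x
    rw [norm_mul, Real.norm_eq_abs, abs_of_nonneg (psi_nonneg x)]
    have := psi_le x
    have h2 := norm_nonneg (f x)
    nlinarith

/-- the integrals entering the estimates -/
structure Ineq (lam : ℝ) (f : E 2 → ℝ) (g : E 2 → E 2) : Prop where
  i1 : ∀ t : ℝ, Real.pi ^ 2 / 4 * ((∫ x, f x * f x) + lam * ∫ x, (psi x * f x) * f x) ≤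
    (∫ x, g x 0 * g x 0) + 2 * t * (∫ x, g x 0 * g x 1) + t ^ 2 * ∫ x, g x 1 * g x 1
  i2 : ∀ s : ℝ, (∫ x, f x * f x) ^ 2 ≤ 4 * (∫ x, (psi x * f x) * f x) *
    (s ^ 2 * (∫ x, g x 0 * g x 0) + 2 * s * (∫ x, g x 0 * g x 1) + ∫ x, g x 1 * g x 1)
  i3 : lam * (∫ x, (psi x * f x) * f x) ≤ ∫ x, f x * f x

theorem ineq_limit {lam : ℝ} {f : E 2 → ℝ} {g : E 2 → E 2} {F : ℕ → E 2 → ℝ}
    {G : ℕ → E 2 → E 2} (hf : MemLp f 2) (hg : MemLp g 2) (hF : ∀ k, MemLp (F k) 2)
    (hG : ∀ k, MemLp (G k) 2)
    (h1 : Tendsto (fun k => eLpNorm (fun x => F k x - f x) 2 volume) atTop (𝓝 0))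
    (h2 : Tendsto (fun k => eLpNorm (fun x => G k x - g x) 2 volume) atTop (𝓝 0))
    (h : ∀ k, Ineq lam (F k) (G k)) : Ineq lam f g := by
  have hpsi : Tendsto (fun k => eLpNorm (fun x => psi x * F k x - psi x * f x) 2 volume)
      atTop (𝓝 0) := by
    apply tendsto_of_tendsto_of_tendsto_of_le_of_le tendsto_const_nhds h1
    · intro k; exact bot_le
    · intro k
      apply eLpNorm_mono
      intro x
      rw [← mul_sub, norm_mul, Real.norm_eq_abs, abs_of_nonneg (psi_nonneg x)]
      have := psi_le x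
      have h2 := norm_nonneg (F k x - f x)
      nlinarith
  have hco : ∀ i : Fin 2, Tendsto (fun k => eLpNorm (fun x => G k x i - g x i) 2 volume)
      atTop (𝓝 0) := by
    intro i
    apply tendsto_of_tendsto_of_tendsto_of_le_of_le tendsto_const_nhds h2
    · intro k; exact bot_le
    · intro k
      apply eLpNorm_mono
      intro x
      have := PiLp.norm_apply_le (G k x - g x) i
      simpa using this
  have tN := tendsto_int_mul hf hf hF hF h1 h1
  have tY := tendsto_int_mul (psi_mul_memLp hf) hf (fun k => psi_mul_memLp (hF k)) hF hpsi h1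
  have tG : ∀ i j : Fin 2, Tendsto (fun k => ∫ x, G k x i * G k x j) atTop
      (𝓝 (∫ x, g x i * g x j)) := fun i j =>
    tendsto_int_mul (coord_memLp hg i) (coord_memLp hg j) (fun k => coord_memLp (hG k) i)
      (fun k => coord_memLp (hG k) j) (hco i) (hco j)
  refine ⟨?_, ?_, ?_⟩
  · intro t
    exact le_of_tendsto_of_tendsto' ((tN.add (tY.const_mul lam)).const_mul _)
      (((tG 0 0).add ((tG 0 1).const_mul (2 * t))).add ((tG 1 1).const_mul (t ^ 2)))
      (fun k => (h k).i1 t)
  · intro s
    exact le_of_tendsto_of_tendsto' (tN.pow 2)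
      ((tY.const_mul 4).mul ((((tG 0 0).const_mul (s ^ 2)).add ((tG 0 1).const_mul (2 * s))).add
        (tG 1 1)))
      (fun k => (h k).i2 s)
  · exact le_of_tendsto_of_tendsto' (tY.const_mul lam) tN (fun k => (h k).i3)

/-- a thin domain around the segment -/
def Thin (lam : ℝ) (Ω : Set (E 2)) : Prop :=
  ∀ x ∈ Ω, |x 0| < 1 ∧ lam * x 1 ^ 2 < Real.cos (Real.pi / 2 * x 0)

theorem quad_expand (g : E 2 → E 2) (hg : MemLp g 2) (v : E 2) :
    ∫ x, (inner ℝ (g x) v) ^ 2 = v 0 ^ 2 * (∫ x, g x 0 * g x 0) +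
      2 * (v 0 * v 1) * (∫ x, g x 0 * g x 1) + v 1 ^ 2 * ∫ x, g x 1 * g x 1 := by
  have i00 : Integrable (fun x => g x 0 * g x 0) := (coord_memLp hg 0).integrable_mul (coord_memLp hg 0)
  have i01 : Integrable (fun x => g x 0 * g x 1) := (coord_memLp hg 0).integrable_mul (coord_memLp hg 1)
  have i11 : Integrable (fun x => g x 1 * g x 1) := (coord_memLp hg 1).integrable_mul (coord_memLp hg 1)
  rw [← integral_const_mul, ← integral_const_mul, ← integral_const_mul,
    ← int3 (i00.const_mul _) (i01.const_mul _) (i11.const_mul _)]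
  apply integral_congr_ae
  filter_upwards with x
  rw [inner_two]
  ring

theorem ineq_smooth {lam : ℝ} (hlam : 1 ≤ lam) {Ω : Set (E 2)} (hthin : Thin lam Ω)
    (f : E 2 → ℝ) (hf : ContDiff ℝ 1 f) (hs : tsupport f ⊆ Ω) (hK : IsCompact (tsupport f)) :
    Ineq lam f (gradient f) := by
  have hcs : HasCompactSupport f := hK
  have hfm : MemLp f 2 := hf.continuous.memLp_of_hasCompactSupport hcs
  have hgm := gradient_memLp hf hcs 2
  have hfK : ∀ x, x ∉ tsupport f → f x = 0 := fun x hx => image_eq_zero_of_notMem_tsupport hx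
  have hpsiΩ : ∀ x ∈ Ω, psi x = x 1 ^ 2 := by
    intro x hx
    have h1 := (hthin x hx).2
    have h2 := Real.cos_le_one (Real.pi / 2 * x 0)
    unfold psi
    apply min_eq_left
    nlinarith [sq_nonneg (x 1)]
  have hder : ∀ x v, inner ℝ (gradient f x) v = fderiv ℝ f x v := fun x v => gradient_inner f x v
  have iff : Integrable (fun x => f x * f x) := hfm.integrable_mul hfm
  have ipf : Integrable (fun x => psi x * f x * f x) := (psi_mul_memLp hfm).integrable_mul hfm
  refine ⟨?_, ?_, ?_⟩
  · intro t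
    set v : E 2 := !₂[1, t] with hv
    have hv0 : v 0 = 1 := by simp [hv]
    have hv1 : v 1 = t := by simp [hv]
    -- coordinate functions
    let p0 : E 2 →L[ℝ] ℝ := EuclideanSpace.proj (𝕜 := ℝ) 0
    let p1 : E 2 →L[ℝ] ℝ := EuclideanSpace.proj (𝕜 := ℝ) 1
    have hp0 : ∀ x : E 2, HasFDerivAt (fun y : E 2 => y 0) p0 x := fun x => p0.hasFDerivAt
    have hp1 : ∀ x : E 2, HasFDerivAt (fun y : E 2 => y 1) p1 x := fun x => p1.hasFDerivAt
    have hp0v : p0 v = 1 := hv0
    have hp1v : p1 v = t := hv1
    have hw : ∀ x : E 2, HasFDerivAt (fun y : E 2 => Real.cos (Real.pi / 2 * y 0) - lam * y 1 ^ 2)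
        ((-Real.sin (Real.pi / 2 * x 0)) • ((Real.pi / 2) • p0) - lam • ((2 * x 1) • p1)) x := by
      intro x
      apply HasFDerivAt.sub
      · exact ((hp0 x).const_mul (Real.pi / 2)).cos
      · have := ((hp1 x).pow 2).const_mul lam
        simpa using this
    have hw1 : ∀ x : E 2, HasFDerivAt (fun y : E 2 => -(Real.pi / 2) * Real.sin (Real.pi / 2 * y 0)
          - 2 * lam * t * y 1)
        (-(Real.pi / 2) • (Real.cos (Real.pi / 2 * x 0) • ((Real.pi / 2) • p0)) -
          (2 * lam * t) • p1) x := by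
      intro x
      apply HasFDerivAt.sub
      · exact (((hp0 x).const_mul (Real.pi / 2)).sin).const_mul (-(Real.pi / 2))
      · exact (hp1 x).const_mul (2 * lam * t)
    have hpic := picone v (fun y : E 2 => Real.cos (Real.pi / 2 * y 0) - lam * y 1 ^ 2)
      (fun y : E 2 => -(Real.pi / 2) * Real.sin (Real.pi / 2 * y 0) - 2 * lam * t * y 1)
      (fun y : E 2 => -(Real.pi / 2) ^ 2 * Real.cos (Real.pi / 2 * y 0) - 2 * lam * t ^ 2)
      (fun y : E 2 => Real.pi ^ 2 / 4 * (1 + lam * psi y))
      (fun x => (hw x).differentiableAt) (fun x => (hw1 x).differentiableAt)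
      (by
        intro x
        rw [(hw x).fderiv]
        simp only [_root_.sub_apply, _root_.smul_apply, smul_eq_mul, hp0v, hp1v]
        ring)
      (by
        intro x
        rw [(hw1 x).fderiv]
        simp only [_root_.sub_apply, _root_.smul_apply, smul_eq_mul, hp0v, hp1v]
        ring)
      (by fun_prop)
      (by have := psi_cont; fun_prop)
      f hf hK
      (by
        intro x hx
        have := (hthin x (hs hx)).2
        linarith)
      (by
        intro x hx
        have h1 := (hthin x (hs hx)).2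
        rw [hpsiΩ x (hs hx)]
        have h2 := Real.cos_le_one (Real.pi / 2 * x 0)
        have h3 : 0 ≤ lam * x 1 ^ 2 := by positivity
        have h4 : (1 + lam * x 1 ^ 2) * (Real.cos (Real.pi / 2 * x 0) - lam * x 1 ^ 2)
            ≤ Real.cos (Real.pi / 2 * x 0) := by nlinarith
        have h5 : 0 ≤ Real.pi ^ 2 / 4 := by positivity
        have h6 := mul_le_mul_of_nonneg_left h4 h5
        have h7 : 0 ≤ 2 * lam * t ^ 2 := by positivity
        nlinarith)
    have e1 : ∫ x, Real.pi ^ 2 / 4 * (1 + lam * psi x) * f x ^ 2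
        = Real.pi ^ 2 / 4 * ((∫ x, f x * f x) + lam * ∫ x, (psi x * f x) * f x) := by
      rw [← integral_const_mul, ← integral_add iff (ipf.const_mul _), ← integral_const_mul]
      apply integral_congr_ae
      filter_upwards with x
      ring
    rw [e1] at hpic
    refine hpic.trans (le_of_eq ?_)
    simp_rw [← hder]
    rw [quad_expand _ hgm, hv0, hv1]
    ring
  · intro s
    set v : E 2 := !₂[s, 1] with hv
    have hv0 : v 0 = s := by simp [hv]
    have hv1 : v 1 = 1 := by simp [hv]
    have hid := heis_id v 1 hv1 f hf hK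
    set h : E 2 → ℝ := fun x => x 1 * f x with hh
    set d : E 2 → ℝ := fun x => fderiv ℝ f x v with hd
    have hcd : Continuous d := (hf.continuous_fderiv (by norm_num)).clm_apply continuous_const
    have hdK : ∀ x, x ∉ tsupport f → d x = 0 := fun x hx => fderiv_zero_off hx v
    have ihh : Integrable (fun x => h x ^ 2) := by
      apply integrable_of_contOn hK
      · exact (((by fun_prop : Continuous (fun x : E 2 => x 1)).mul hf.continuous).pow 2).continuousOn
      · intro x hx
        simp only [hh, hfK x hx]; ring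
    have idd : Integrable (fun x => d x ^ 2) := by
      apply integrable_of_contOn hK
      · exact (hcd.pow 2).continuousOn
      · intro x hx
        rw [hdK x hx]; ring
    have ihd : Integrable (fun x => h x * d x) := by
      apply integrable_of_contOn hK
      · exact ((((by fun_prop : Continuous (fun x : E 2 => x 1)).mul hf.continuous)).mul hcd).continuousOn
      · intro x hx
        rw [hdK x hx]; ring
    have hCS : (∫ x, h x * d x) ^ 2 ≤ (∫ x, h x ^ 2) * ∫ x, d x ^ 2 := by
      have hq : ∀ r : ℝ, 0 ≤ (∫ x, h x ^ 2) * (r * r) + (2 * ∫ x, h x * d x) * r + ∫ x, d x ^ 2 := by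
        intro r
        have : (∫ x, h x ^ 2) * (r * r) + (2 * ∫ x, h x * d x) * r + ∫ x, d x ^ 2
            = ∫ x, (r * h x + d x) ^ 2 := by
          rw [← integral_mul_const, ← integral_const_mul, ← integral_mul_const,
            ← int3 (ihh.mul_const _) ((ihd.const_mul 2).mul_const _) idd]
          apply integral_congr_ae
          filter_upwards with x
          ring
        rw [this]
        exact integral_nonneg (fun x => sq_nonneg _)
      have := discrim_le_zero hq
      unfold discrim at this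
      nlinarith
    have e1 : ∫ x, h x ^ 2 = ∫ x, (psi x * f x) * f x := by
      apply integral_congr_ae
      filter_upwards with x
      by_cases hx : x ∈ tsupport f
      · rw [hpsiΩ x (hs hx)]; simp only [hh]; ring
      · simp only [hh, hfK x hx]; ring
    have e2 : ∫ x, d x ^ 2 = s ^ 2 * (∫ x, gradient f x 0 * gradient f x 0) +
        2 * s * (∫ x, gradient f x 0 * gradient f x 1) + ∫ x, gradient f x 1 * gradient f x 1 := by
      simp only [hd]
      simp_rw [← hder]
      rw [quad_expand _ hgm, hv0, hv1]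
      ring
    have e3 : ∫ x, f x * f x = -2 * ∫ x, h x * d x := by
      rw [← hid]
      apply integral_congr_ae
      filter_upwards with x
      ring
    rw [e3, ← e1, ← e2]
    nlinarith
  · rw [← integral_const_mul]
    apply integral_mono (ipf.const_mul _) iff
    intro x
    simp only
    by_cases hx : x ∈ tsupport f
    · rw [hpsiΩ x (hs hx)]
      have h1 := (hthin x (hs hx)).2
      have h2 := Real.cos_le_one (Real.pi / 2 * x 0)
      have h3 : lam * x 1 ^ 2 * (f x * f x) ≤ 1 * (f x * f x) :=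
        mul_le_mul_of_nonneg_right (by linarith) (mul_self_nonneg _)
      nlinarith
    · rw [hfK x hx]; norm_num

end Pool.Agent.K1H92.AZS
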