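import Pool.Agent.K1H92.AZS.Energy

/-! The directional Picone inequality and the directional uncertainty inequality. -/

set_option autoImplicit false

open MeasureTheory Set Filter Topology

namespace Pool.Agent.K1H92.AZS

theorem integrable_of_contOn {n : ℕ} {F : E n → ℝ} {K : Set (E n)} (hK : IsCompact K)
    (hF : ContinuousOn F K) (h0 : ∀ x, x ∉ K → F x = 0) : Integrable F := by
  rw [← integrableOn_iff_integrable_of_support_subset (s := K)]
  · exact hF.integrableOn_compact hK
  · intro x hx
    by_contra hxK
    exact hx (h0 x hxK)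

theorem fderiv_zero_off {n : ℕ} {f : E n → ℝ} {x : E n} (hx : x ∉ tsupport f) (v : E n) :
    fderiv ℝ f x v = 0 := by
  have h1 := notMem_tsupport_iff_eventuallyEq.mp hx
  have h2 := h1.fderiv_eq (𝕜 := ℝ)
  rw [h2]
  simp

/-- Directional Picone inequality: a positive supersolution `w` of `-∂_v² w ≥ q w` near the support
of `f` gives `∫ q f² ≤ ∫ (∂_v f)²`. -/
theorem picone {n : ℕ} (v : E n) (w w1 w2 q : E n → ℝ) (hw : Differentiable ℝ w)
    (hw1d : Differentiable ℝ w1) (hw1 : ∀ x, fderiv ℝ w x v = w1 x)
    (hw2 : ∀ x, fderiv ℝ w1 x v = w2 x) (hw2c : Continuous w2) (hq : Continuous q)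
    (f : E n → ℝ) (hf : ContDiff ℝ 1 f) (hK : IsCompact (tsupport f))
    (hpos : ∀ x ∈ tsupport f, 0 < w x) (hsup : ∀ x ∈ tsupport f, q x * w x ≤ -w2 x) :
    ∫ x, q x * f x ^ 2 ≤ ∫ x, (fderiv ℝ f x v) ^ 2 := by
  set K := tsupport f with hKdef
  have hfK : ∀ x, x ∉ K → f x = 0 := fun x hx => image_eq_zero_of_notMem_tsupport hx
  have hdK : ∀ x, x ∉ K → fderiv ℝ f x v = 0 := fun x hx => fderiv_zero_off hx v
  have hfd : Differentiable ℝ f := hf.differentiable (by norm_num)
  have hdc : Continuous (fun x => fderiv ℝ f x v) := (hf.continuous_fderiv (by norm_num)).clm_apply continuous_const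
  have hwc : Continuous w := hw.continuous
  have hw1c : Continuous w1 := hw1d.continuous
  set H : E n → ℝ := fun x => w1 x / w x with hH
  have hHd : ∀ x ∈ K, DifferentiableAt ℝ H x := by
    intro x hx
    have := (hw1d x).mul ((hw x).inv (hpos x hx).ne')
    rw [hH]
    simp_rw [div_eq_mul_inv]
    exact this
  have hHder : ∀ x ∈ K, fderiv ℝ H x v = w2 x / w x - (w1 x / w x) ^ 2 := by
    intro x hx
    have hx0 := (hpos x hx).ne'
    have hev : w1 =ᶠ[𝓝 x] fun y => H y * w y := by
      filter_upwards [hwc.continuousAt.eventually_ne hx0] with y hy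
      simp only [hH]
      field_simp
    have h1 := hev.fderiv_eq (𝕜 := ℝ)
    have h2 : fderiv ℝ w1 x v = fderiv ℝ (fun y => H y * w y) x v := by rw [h1]
    rw [fderiv_fun_mul (hHd x hx) (hw x), hw2] at h2
    simp only [_root_.add_apply, _root_.smul_apply, smul_eq_mul, hw1] at h2
    have h3 : H x = w1 x / w x := rfl
    rw [h3] at h2
    field_simp
    field_simp at h2
    linear_combination -h2
  have hcH : ContinuousOn H K := hw1c.continuousOn.div hwc.continuousOn (fun x hx => (hpos x hx).ne')
  set g : E n → ℝ := fun x => f x ^ 2 with hg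
  have hgd : Differentiable ℝ g := hfd.pow 2
  have hgder : ∀ x, fderiv ℝ g x v = 2 * f x * fderiv ℝ f x v := by
    intro x
    rw [hg, fderiv_fun_pow 2 (hfd x)]
    simp
  have hgs : tsupport g ⊆ K := by
    apply closure_mono
    intro x hx hx0
    apply hx
    simp only [hg, hx0]
    norm_num
  have i1 : Integrable (fun x => fderiv ℝ H x v * g x) := by
    apply integrable_of_contOn hK (F := fun x => fderiv ℝ H x v * g x)
    · have : ContinuousOn (fun x => (w2 x / w x - (w1 x / w x) ^ 2) * g x) K := by
        apply ContinuousOn.mul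
        · apply ContinuousOn.sub
          · exact hw2c.continuousOn.div hwc.continuousOn (fun x hx => (hpos x hx).ne')
          · exact hcH.pow 2
        · exact (hf.continuous.pow 2).continuousOn
      apply this.congr
      intro x hx
      simp only [hHder x hx]
    · intro x hx
      simp only [hg, hfK x hx]
      ring
  have i2 : Integrable (fun x => H x * fderiv ℝ g x v) := by
    apply integrable_of_contOn hK
    · apply hcH.mul
      simp_rw [hgder]
      exact ((continuous_const.mul hf.continuous).mul hdc).continuousOn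
    · intro x hx
      rw [hgder, hfK x hx]
      ring
  have i3 : Integrable (fun x => H x * g x) := by
    apply integrable_of_contOn hK
    · exact hcH.mul (hf.continuous.pow 2).continuousOn
    · intro x hx
      simp only [hg, hfK x hx]
      ring
  have hibp := integral_mul_fderiv_eq_neg_fderiv_mul_of_integrable (μ := volume) i1 i2 i3
    (fun x hx => hHd x (hgs hx)) (fun x _ => hgd x)
  have i4 : Integrable (fun x => (fderiv ℝ f x v) ^ 2) := by
    apply integrable_of_contOn hK
    · exact (hdc.pow 2).continuousOn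
    · intro x hx
      rw [hdK x hx]; ring
  have i5 : Integrable (fun x => q x * f x ^ 2) := by
    apply integrable_of_contOn hK
    · exact (hq.mul (hf.continuous.pow 2)).continuousOn
    · intro x hx
      rw [hfK x hx]; ring
  have key : ∫ x, q x * f x ^ 2 ≤ ∫ x, ((fderiv ℝ f x v) ^ 2 - H x * fderiv ℝ g x v
      - fderiv ℝ H x v * g x) := by
    apply integral_mono i5 ((i4.sub i2).sub i1)
    intro x
    simp only [Pi.sub_apply]
    by_cases hx : x ∈ K
    · rw [hHder x hx, hgder]
      have h1 := hsup x hx
      have h2 := hpos x hx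
      have h3 : q x ≤ -w2 x / w x := by
        rw [le_div_iff₀ h2]; exact h1
      have h4 : q x * f x ^ 2 ≤ (-w2 x / w x) * f x ^ 2 :=
        mul_le_mul_of_nonneg_right h3 (sq_nonneg _)
      have h5 := sq_nonneg (fderiv ℝ f x v - f x * (w1 x / w x))
      simp only [hg, hH]
      have h6 : (fderiv ℝ f x v) ^ 2 - w1 x / w x * (2 * f x * fderiv ℝ f x v)
          - (w2 x / w x - (w1 x / w x) ^ 2) * f x ^ 2
          = (fderiv ℝ f x v - f x * (w1 x / w x)) ^ 2 + (-w2 x / w x) * f x ^ 2 := by ring
      rw [h6]
      linarith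
    · rw [hgder, hdK x hx]
      simp only [hg, hfK x hx]
      norm_num
  refine key.trans (le_of_eq ?_)
  have e1 := integral_sub (μ := volume) (f := fun x => (fderiv ℝ f x v) ^ 2 - H x * fderiv ℝ g x v)
    (g := fun x => fderiv ℝ H x v * g x) (i4.sub i2) i1
  rw [e1, integral_sub i4 i2, hibp]
  ring

/-- `∫ f² = - 2 ∫ y f ∂_v f` where `y` is the coordinate `i` and `v_i = 1`. -/
theorem heis_id {n : ℕ} (v : E n) (i : Fin n) (hv : v i = 1) (f : E n → ℝ) (hf : ContDiff ℝ 1 f)
    (hK : IsCompact (tsupport f)) :
    ∫ x, f x ^ 2 = - 2 * ∫ x, (x i * f x) * fderiv ℝ f x v := by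
  set K := tsupport f with hKdef
  have hfK : ∀ x, x ∉ K → f x = 0 := fun x hx => image_eq_zero_of_notMem_tsupport hx
  have hdK : ∀ x, x ∉ K → fderiv ℝ f x v = 0 := fun x hx => fderiv_zero_off hx v
  have hfd : Differentiable ℝ f := hf.differentiable (by norm_num)
  have hdc : Continuous (fun x => fderiv ℝ f x v) := (hf.continuous_fderiv (by norm_num)).clm_apply continuous_const
  set H : E n → ℝ := fun x => x i with hH
  have hHd : Differentiable ℝ H := by
    have : H = fun x => (EuclideanSpace.proj (𝕜 := ℝ) i : E n →L[ℝ] ℝ) x := rfl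
    rw [this]
    exact (EuclideanSpace.proj (𝕜 := ℝ) i : E n →L[ℝ] ℝ).differentiable
  have hHder : ∀ x, fderiv ℝ H x v = 1 := by
    intro x
    have : H = fun x => (EuclideanSpace.proj (𝕜 := ℝ) i : E n →L[ℝ] ℝ) x := rfl
    rw [this, ContinuousLinearMap.fderiv]
    simpa using hv
  set g : E n → ℝ := fun x => f x ^ 2 with hg
  have hgd : Differentiable ℝ g := hfd.pow 2
  have hgder : ∀ x, fderiv ℝ g x v = 2 * f x * fderiv ℝ f x v := by
    intro x
    rw [hg, fderiv_fun_pow 2 (hfd x)]
    simp
  have i1 : Integrable (fun x => fderiv ℝ H x v * g x) := by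
    apply integrable_of_contOn hK (F := fun x => fderiv ℝ H x v * g x)
    · simp_rw [hHder]
      exact (continuous_const.mul (hf.continuous.pow 2)).continuousOn
    · intro x hx
      simp only [hg, hfK x hx]
      ring
  have i2 : Integrable (fun x => H x * fderiv ℝ g x v) := by
    apply integrable_of_contOn hK
    · simp_rw [hgder]
      exact (hHd.continuous.mul ((continuous_const.mul hf.continuous).mul hdc)).continuousOn
    · intro x hx
      rw [hgder, hfK x hx]
      ring
  have i3 : Integrable (fun x => H x * g x) := by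
    apply integrable_of_contOn hK
    · exact (hHd.continuous.mul (hf.continuous.pow 2)).continuousOn
    · intro x hx
      simp only [hg, hfK x hx]
      ring
  have hibp := integral_mul_fderiv_eq_neg_fderiv_mul_of_integrable (μ := volume) i1 i2 i3
    (fun x _ => hHd x) (fun x _ => hgd x)
  simp only [hHder, one_mul] at hibp
  have h2 : ∫ x, g x = - ∫ x, H x * fderiv ℝ g x v := by rw [hibp]; ring
  rw [h2, ← integral_const_mul, ← integral_neg]
  apply integral_congr_ae
  filter_upwards with x
  rw [hgder]
  simp only [hH]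
  ring

end Pool.Agent.K1H92.AZS
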