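import Pool.Agent.K1H92.AZS.TestFn

/-! The strict inequality and the value of the best constant. -/

set_option autoImplicit false

open MeasureTheory Set Filter Topology

namespace Pool.Agent.K1H92.AZS

/-- integrals -/
noncomputable def Nf (f : E 2 → ℝ) : ℝ := ∫ x, f x * f x
noncomputable def Gij (g : E 2 → E 2) (i j : Fin 2) : ℝ := ∫ x, g x i * g x j

theorem gram_posDef (g : E 2 → E 2) (ha : 0 < Gij g 0 0)
    (hD : 0 < Gij g 0 0 * Gij g 1 1 - Gij g 0 1 ^ 2) : (gram g).PosDef := by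
  have hsymm : Gij g 1 0 = Gij g 0 1 := by
    unfold Gij; congr 1; funext x; ring
  apply Matrix.PosDef.of_dotProduct_mulVec_pos
  · apply Matrix.IsHermitian.ext
    intro i j
    simp only [gram, Matrix.of_apply, star_trivial]
    congr 1
    funext x
    ring
  · intro x hx
    have e : star x ⬝ᵥ (gram g).mulVec x = Gij g 0 0 * x 0 ^ 2 + 2 * Gij g 0 1 * (x 0 * x 1)
        + Gij g 1 1 * x 1 ^ 2 := by
      have h10 : gram g 1 0 = Gij g 1 0 := rfl
      have h00 : gram g 0 0 = Gij g 0 0 := rfl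
      have h01 : gram g 0 1 = Gij g 0 1 := rfl
      have h11 : gram g 1 1 = Gij g 1 1 := rfl
      simp only [dotProduct, Matrix.mulVec, Fin.sum_univ_two, star_trivial, Pi.star_apply,
        h10, h00, h01, h11, hsymm]
      ring
    rw [e]
    have e2 : Gij g 0 0 * (Gij g 0 0 * x 0 ^ 2 + 2 * Gij g 0 1 * (x 0 * x 1) + Gij g 1 1 * x 1 ^ 2)
        = (Gij g 0 0 * x 0 + Gij g 0 1 * x 1) ^ 2 +
          (Gij g 0 0 * Gij g 1 1 - Gij g 0 1 ^ 2) * x 1 ^ 2 := by ring
    have hpos : 0 < (Gij g 0 0 * x 0 + Gij g 0 1 * x 1) ^ 2 +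
          (Gij g 0 0 * Gij g 1 1 - Gij g 0 1 ^ 2) * x 1 ^ 2 := by
      rcases eq_or_ne (x 1) 0 with h1 | h1
      · have h0 : x 0 ≠ 0 := by
          intro h0
          apply hx
          funext i
          fin_cases i
          · exact h0
          · exact h1
        rw [h1]
        have : Gij g 0 0 * x 0 ≠ 0 := mul_ne_zero ha.ne' h0
        have h3 : 0 < (Gij g 0 0 * x 0) ^ 2 := by positivity
        nlinarith
      · have h3 : 0 < (Gij g 0 0 * Gij g 1 1 - Gij g 0 1 ^ 2) * x 1 ^ 2 := by positivity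
        nlinarith [sq_nonneg (Gij g 0 0 * x 0 + Gij g 0 1 * x 1)]
    rw [← e2] at hpos
    exact (mul_pos_iff_of_pos_left ha).mp hpos

theorem ratio_eq (f : E 2 → ℝ) (g : E 2 → E 2) (hg : MemLp g 2)
    (hN : 0 < Nf f) (ha : 0 < Gij g 0 0) (hb : 0 < Gij g 1 1)
    (hD : 0 < Gij g 0 0 * Gij g 1 1 - Gij g 0 1 ^ 2) :
    ratio 2 f g = (4 * (Gij g 0 0 * Gij g 1 1 - Gij g 0 1 ^ 2) /
      (Nf f * (Gij g 0 0 + Gij g 1 1))) ^ (1 / 4 : ℝ) := by
  have hpd := gram_posDef g ha hD
  have hdet : (gram g).det = Gij g 0 0 * Gij g 1 1 - Gij g 0 1 ^ 2 := by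
    rw [Matrix.det_fin_two]
    have h10 : gram g 1 0 = Gij g 0 1 := by
      simp only [gram, Matrix.of_apply, Gij]; congr 1; funext x; ring
    have h00 : gram g 0 0 = Gij g 0 0 := rfl
    have h01 : gram g 0 1 = Gij g 0 1 := rfl
    have h11 : gram g 1 1 = Gij g 1 1 := rfl
    rw [h10, h00, h01, h11]; ring
  have hE := energy_two (n := 2) (by norm_num) g hg hpd
  rw [hdet] at hE
  set D := Gij g 0 0 * Gij g 1 1 - Gij g 0 1 ^ 2 with hDdef
  have hlf : lpn 2 f = (Nf f) ^ (1 / 2 : ℝ) := by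
    unfold lpn Nf
    congr 1
    apply integral_congr_ae
    filter_upwards with x
    rw [Real.rpow_two, Real.norm_eq_abs, sq_abs]; ring
  have hlg : lpn 2 g = (Gij g 0 0 + Gij g 1 1) ^ (1 / 2 : ℝ) := by
    unfold lpn Gij
    congr 1
    have i00 : Integrable (fun x => g x 0 * g x 0) :=
      (coord_memLp hg 0).integrable_mul (coord_memLp hg 0)
    have i11 : Integrable (fun x => g x 1 * g x 1) :=
      (coord_memLp hg 1).integrable_mul (coord_memLp hg 1)
    rw [← integral_add i00 i11]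
    apply integral_congr_ae
    filter_upwards with x
    rw [Real.rpow_two, EuclideanSpace.norm_sq_eq, Fin.sum_univ_two]
    simp only [Real.norm_eq_abs, sq_abs]
    ring
  unfold ratio
  rw [hE, hlf, hlg]
  set S := Gij g 0 0 + Gij g 1 1 with hS
  have hSpos : 0 < S := by positivity
  have e1 : (((2 : ℕ) : ℝ) - 1) / ((2 : ℕ) : ℝ) = 1 / 2 := by norm_num
  have e2 : (1 : ℝ) / (2 * ((2 : ℕ) : ℝ)) = 1 / 4 := by norm_num
  have e3 : (1 : ℝ) / ((2 : ℕ) : ℝ) = 1 / 2 := by norm_num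
  rw [e1, e2, e3, ← Real.rpow_mul hN.le, ← Real.rpow_mul hSpos.le]
  have e4 : (1 / 2 : ℝ) * (1 / 2) = 1 / 4 := by norm_num
  rw [e4, Real.div_rpow (by positivity) (by positivity), Real.mul_rpow (by norm_num) hD.le,
    Real.mul_rpow hN.le hSpos.le]
  have e5 : Real.sqrt ((2 : ℕ) : ℝ) = (4 : ℝ) ^ (1 / 4 : ℝ) := by
    rw [Real.sqrt_eq_rpow]
    have : (4 : ℝ) = 2 ^ (2 : ℝ) := by norm_num
    rw [this, ← Real.rpow_mul (by norm_num)]
    norm_num
  rw [e5]

theorem strict_of_ineq {lam : ℝ} (hlam : 2 * Real.pi ^ 2 < lam) {f : E 2 → ℝ} {g : E 2 → E 2}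
    (hN : 0 < Nf f) (h : Ineq lam f g) (hY0 : 0 ≤ ∫ x, (psi x * f x) * f x) :
    0 < Gij g 0 0 ∧ 0 < Gij g 1 1 ∧ 0 < Gij g 0 0 * Gij g 1 1 - Gij g 0 1 ^ 2 ∧
    Real.pi ^ 2 < 4 * (Gij g 0 0 * Gij g 1 1 - Gij g 0 1 ^ 2) /
      (Nf f * (Gij g 0 0 + Gij g 1 1)) := by
  have hpi : 0 < Real.pi ^ 2 := by positivity
  obtain ⟨i1, i2, i3⟩ := h
  set Y := ∫ x, (psi x * f x) * f x with hY
  change ∀ t : ℝ, Real.pi ^ 2 / 4 * (Nf f + lam * Y) ≤ Gij g 0 0 + 2 * t * Gij g 0 1
    + t ^ 2 * Gij g 1 1 at i1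
  change ∀ s : ℝ, Nf f ^ 2 ≤ 4 * Y * (s ^ 2 * Gij g 0 0 + 2 * s * Gij g 0 1 + Gij g 1 1) at i2
  change lam * Y ≤ Nf f at i3
  set N := Nf f
  set a := Gij g 0 0
  set b := Gij g 1 1
  set c := Gij g 0 1
  have hl : 0 < lam := by nlinarith
  have hYpos : 0 < Y := by
    rcases hY0.lt_or_eq with h | h
    · exact h
    · have := i2 0
      rw [← h] at this
      nlinarith
  have hb : 0 < b := by
    have := i2 0
    by_contra hcon
    push Not at hcon
    have h1 : 4 * Y * (0 ^ 2 * a + 2 * 0 * c + b) ≤ 0 := by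
      have : 4 * Y * (0 ^ 2 * a + 2 * 0 * c + b) = 4 * (Y * b) := by ring
      rw [this]
      have := mul_nonpos_of_nonneg_of_nonpos hYpos.le hcon
      linarith
    nlinarith
  have ha : 0 < a := by
    have := i1 0
    have h2 : 0 < Real.pi ^ 2 / 4 * (N + lam * Y) := by positivity
    nlinarith
  have d1 : Real.pi ^ 2 / 4 * (N + lam * Y) * b ≤ a * b - c ^ 2 := by
    have h1 := i1 (-c / b)
    have h2 := mul_le_mul_of_nonneg_right h1 hb.le
    have h3 : (a + 2 * (-c / b) * c + (-c / b) ^ 2 * b) * b = a * b - c ^ 2 := by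
      field_simp; ring
    rw [h3] at h2
    exact h2
  have d2 : N ^ 2 * a ≤ 4 * Y * (a * b - c ^ 2) := by
    have h1 := i2 (-c / a)
    have h2 := mul_le_mul_of_nonneg_right h1 ha.le
    have h3 : 4 * Y * ((-c / a) ^ 2 * a + 2 * (-c / a) * c + b) * a = 4 * Y * (a * b - c ^ 2) := by
      field_simp; ring
    rw [h3] at h2
    exact h2
  have hD : 0 < a * b - c ^ 2 := by
    have : 0 < Real.pi ^ 2 / 4 * (N + lam * Y) * b := by positivity
    linarith
  refine ⟨ha, hb, hD, ?_⟩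
  set D := a * b - c ^ 2
  rw [lt_div_iff₀ (by positivity)]
  -- b ≤ 4 D / (π² (N + lam Y)), a ≤ 4 Y D / N²
  have hNY : 0 < N + lam * Y := by positivity
  have b1 : b ≤ 4 * D / (Real.pi ^ 2 * (N + lam * Y)) := by
    rw [le_div_iff₀ (by positivity)]; nlinarith
  have a1 : a ≤ 4 * Y * D / N ^ 2 := by
    rw [le_div_iff₀ (by positivity)]; nlinarith
  have key : Real.pi ^ 2 * Y / N + N / (N + lam * Y) < 1 := by
    rw [div_add_div _ _ hN.ne' hNY.ne', div_lt_one (by positivity)]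
    have h1 : Real.pi ^ 2 * (N + lam * Y) < lam * N := by nlinarith
    have h2 := mul_lt_mul_of_pos_left h1 hYpos
    nlinarith
  calc Real.pi ^ 2 * (N * (a + b))
      ≤ Real.pi ^ 2 * (N * (4 * Y * D / N ^ 2 + 4 * D / (Real.pi ^ 2 * (N + lam * Y)))) := by
        apply mul_le_mul_of_nonneg_left _ hpi.le
        apply mul_le_mul_of_nonneg_left _ hN.le
        exact add_le_add a1 b1
    _ = 4 * D * (Real.pi ^ 2 * Y / N + N / (N + lam * Y)) := by
        field_simp
    _ < 4 * D * 1 := by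
        apply mul_lt_mul_of_pos_left key (by positivity)
    _ = 4 * D := by ring

theorem sqrt_pi_lt {x : ℝ} (hx : Real.pi ^ 2 < x) : Real.sqrt Real.pi < x ^ (1 / 4 : ℝ) := by
  have h1 : Real.sqrt Real.pi = (Real.pi ^ 2) ^ (1 / 4 : ℝ) := by
    rw [Real.sqrt_eq_rpow, ← Real.rpow_two, ← Real.rpow_mul Real.pi_pos.le]
    norm_num
  rw [h1]
  exact Real.rpow_lt_rpow (by positivity) hx (by norm_num)

theorem W0_strict {lam : ℝ} (hlam : 2 * Real.pi ^ 2 < lam) {Ω : Set (E 2)}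
    (hbd : Bornology.IsBounded Ω) (hthin : Thin lam Ω) {f : E 2 → ℝ} {g : E 2 → E 2}
    (hW : W0 2 Ω f g) (hf0 : ¬ f =ᵐ[volume] 0) :
    0 < Nf f ∧ 0 < Gij g 0 0 ∧ 0 < Gij g 1 1 ∧ 0 < Gij g 0 0 * Gij g 1 1 - Gij g 0 1 ^ 2 ∧
    Real.sqrt Real.pi < ratio 2 f g := by
  obtain ⟨hf, hg, F, hF, t1, t2⟩ := hW
  have e2 : ENNReal.ofReal 2 = 2 := by norm_num
  rw [e2] at hf hg t1 t2
  have hl1 : 1 ≤ lam := by
    have := Real.pi_gt_three
    nlinarith
  have hcomp : ∀ k, IsCompact (tsupport (F k)) := fun k =>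
    Metric.isCompact_of_isClosed_isBounded (isClosed_tsupport _) (hbd.subset (hF k).2)
  have hI : Ineq lam f g := ineq_limit hf hg
    (fun k => (hF k).1.continuous.memLp_of_hasCompactSupport (hcomp k))
    (fun k => gradient_memLp (hF k).1 (hcomp k) 2) t1 t2
    (fun k => ineq_smooth hl1 hthin (F k) (hF k).1 (hF k).2 (hcomp k))
  have hN : 0 < Nf f := by
    have h0 : 0 ≤ Nf f := integral_nonneg (fun x => mul_self_nonneg _)
    rcases h0.lt_or_eq with h | h
    · exact h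
    · exfalso
      apply hf0
      have h1 := (integral_eq_zero_iff_of_nonneg (fun x => mul_self_nonneg (f x))
        (hf.integrable_mul hf)).mp h.symm
      filter_upwards [h1] with x hx
      exact mul_self_eq_zero.mp hx
  have hY0 : 0 ≤ ∫ x, (psi x * f x) * f x := by
    apply integral_nonneg
    intro x
    have := psi_nonneg x
    show 0 ≤ psi x * f x * f x
    rw [mul_assoc]
    exact mul_nonneg this (mul_self_nonneg _)
  obtain ⟨ha, hb, hD, hlt⟩ := strict_of_ineq hlam hN hI hY0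
  refine ⟨hN, ha, hb, hD, ?_⟩
  rw [ratio_eq f g hg hN ha hb hD]
  exact sqrt_pi_lt hlt

theorem C1c_W0 {Ω : Set (E 2)} (hbd : Bornology.IsBounded Ω) {f : E 2 → ℝ} (hf : C1c Ω f)
    (hf0 : f ≠ 0) : W0 2 Ω f (gradient f) ∧ ¬ f =ᵐ[volume] 0 := by
  have hK : IsCompact (tsupport f) :=
    Metric.isCompact_of_isClosed_isBounded (isClosed_tsupport _) (hbd.subset hf.2)
  have e2 : ENNReal.ofReal 2 = 2 := by norm_num
  refine ⟨⟨?_, ?_, fun _ => f, fun _ => hf, ?_, ?_⟩, ?_⟩
  · exact hf.1.continuous.memLp_of_hasCompactSupport hK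
  · exact gradient_memLp hf.1 hK _
  · simp
  · simp
  · intro h
    apply hf0
    exact (hf.1.continuous.ae_eq_iff_eq volume continuous_const).mp h

theorem main {lam : ℝ} (hlam : 2 * Real.pi ^ 2 < lam) {Ω : Set (E 2)} (hΩ : IsOpen Ω)
    (hbd : Bornology.IsBounded Ω) (hseg : ∀ x : E 2, |x 0| < 1 → x 1 = 0 → x ∈ Ω)
    (hthin : Thin lam Ω) :
    bestA 2 2 Ω = Real.sqrt Real.pi ∧
    ∀ f g, W0 2 Ω f g → ¬ f =ᵐ[volume] 0 → bestA 2 2 Ω < ratio 2 f g := by
  have hval : bestA 2 2 Ω = Real.sqrt Real.pi := by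
    apply le_antisymm
    · -- upper bound
      apply le_of_forall_pos_le_add
      intro ε hε
      -- choose η
      have hcont : Tendsto (fun η : ℝ => (Real.pi ^ 2 / (1 - 8 * η)) ^ (1 / 4 : ℝ)) (𝓝[>] 0)
          (𝓝 (Real.sqrt Real.pi)) := by
        have h1 : Real.sqrt Real.pi = (Real.pi ^ 2 / (1 - 8 * 0)) ^ (1 / 4 : ℝ) := by
          rw [Real.sqrt_eq_rpow, mul_zero, sub_zero, div_one, ← Real.rpow_two,
            ← Real.rpow_mul Real.pi_pos.le]
          norm_num
        rw [h1]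
        apply tendsto_nhdsWithin_of_tendsto_nhds
        have h2 : ContinuousAt (fun η : ℝ => (Real.pi ^ 2 / (1 - 8 * η)) ^ (1 / 4 : ℝ)) 0 := by
          apply ContinuousAt.rpow_const
          · apply ContinuousAt.div continuousAt_const (by fun_prop)
            norm_num
          · right; norm_num
        exact h2
      have hev : ∀ᶠ η : ℝ in 𝓝[>] 0,
          (Real.pi ^ 2 / (1 - 8 * η)) ^ (1 / 4 : ℝ) < Real.sqrt Real.pi + ε :=
        hcont.eventually_lt_const (by linarith)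
      have hev2 : ∀ᶠ η : ℝ in 𝓝[>] 0, η ∈ Ioo (0 : ℝ) (1 / 8) :=
        Ioo_mem_nhdsGT (by norm_num)
      obtain ⟨η, h1, h2, h3⟩ := (hev.and hev2).exists
      obtain ⟨δ, hδ, hsup⟩ := exists_delta h2 hΩ hseg
      have hC : C1c Ω (tf η δ) := ⟨contDiff_tf h2 δ, hsup⟩
      have hI := tf_integrals h2 δ
      have hJ := int_phi_scaled_pos h2 h3 hδ
      have hne : tf η δ ≠ 0 := by
        intro h0
        have h5 := hI.1
        rw [h0] at h5
        simp only [Pi.zero_apply, mul_zero, integral_zero] at h5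
        have h6 := int_phi h2
        have h7 : 0 < (∫ x, phi η x * phi η x) * ∫ y, phi η (y / δ) * phi η (y / δ) := by
          apply mul_pos _ hJ
          linarith
        linarith
      obtain ⟨hW, hae⟩ := C1c_W0 hbd hC hne
      obtain ⟨hN, ha, hb, hD, _⟩ := W0_strict hlam hbd hthin hW hae
      have hr := ratio_eq (tf η δ) (gradient (tf η δ))
        (gradient_memLp hC.1 (Metric.isCompact_of_isClosed_isBounded (isClosed_tsupport _)
          (hbd.subset hC.2)) 2) hN ha hb hD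
      have hle : ratio 2 (tf η δ) (gradient (tf η δ)) ≤
          (Real.pi ^ 2 / (1 - 8 * η)) ^ (1 / 4 : ℝ) := by
        rw [hr]
        apply Real.rpow_le_rpow (by positivity) _ (by norm_num)
        have hNv : Nf (tf η δ) = (∫ x, phi η x * phi η x) * ∫ y, phi η (y / δ) * phi η (y / δ) :=
          hI.1
        have hav : Gij (gradient (tf η δ)) 0 0 =
            (∫ x, dphi η x * dphi η x) * ∫ y, phi η (y / δ) * phi η (y / δ) := hI.2
        have q1 := int_phi h2
        have q2 := int_dphi h2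
        set P := ∫ x, phi η x * phi η x
        set Q := ∫ x, dphi η x * dphi η x
        set J := ∫ y, phi η (y / δ) * phi η (y / δ)
        set b := Gij (gradient (tf η δ)) 1 1
        set c := Gij (gradient (tf η δ)) 0 1
        set a := Gij (gradient (tf η δ)) 0 0
        rw [div_le_div_iff₀ (by positivity) (by linarith)]
        -- 4 (ab - c²) (1 - 8η) ≤ π² N (a+b)
        have r1 : 4 * (a * b - c ^ 2) * (1 - 8 * η) ≤ 4 * (a * b) * (1 - 8 * η) := by
          have : 0 ≤ 1 - 8 * η := by linarith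
          nlinarith [sq_nonneg c]
        have r2 : 4 * a * (1 - 8 * η) ≤ Real.pi ^ 2 * Nf (tf η δ) := by
          rw [hNv, hav]
          have s1 : 4 * Q ≤ Real.pi ^ 2 := by linarith
          have s2 : 4 * Q * (1 - 8 * η) ≤ Real.pi ^ 2 * P := by
            have t1 : 4 * Q * (1 - 8 * η) ≤ Real.pi ^ 2 * (1 - 8 * η) :=
              mul_le_mul_of_nonneg_right s1 (by linarith)
            have t2 : Real.pi ^ 2 * (1 - 8 * η) ≤ Real.pi ^ 2 * P :=
              mul_le_mul_of_nonneg_left q1 (by positivity)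
            linarith
          have s3 := mul_le_mul_of_nonneg_right s2 hJ.le
          nlinarith
        have r3 := mul_le_mul_of_nonneg_right r2 hb.le
        have r4 : 0 ≤ Real.pi ^ 2 * Nf (tf η δ) * a := by positivity
        nlinarith
      have hmem : ratio 2 (tf η δ) (gradient (tf η δ)) ∈
          {r : ℝ | ∃ f : E 2 → ℝ, C1c Ω f ∧ f ≠ 0 ∧ r = ratio 2 f (gradient f)} :=
        ⟨tf η δ, hC, hne, rfl⟩
      have hbdd : BddBelow {r : ℝ | ∃ f : E 2 → ℝ, C1c Ω f ∧ f ≠ 0 ∧ r = ratio 2 f (gradient f)} := by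
        refine ⟨Real.sqrt Real.pi, ?_⟩
        rintro r ⟨f, hf, hf0, rfl⟩
        obtain ⟨hW, hae⟩ := C1c_W0 hbd hf hf0
        exact (W0_strict hlam hbd hthin hW hae).2.2.2.2.le
      exact (csInf_le hbdd hmem).trans (hle.trans h1.le)
    · apply le_csInf
      · -- nonempty
        obtain ⟨δ, hδ, hsup⟩ := exists_delta (η := 1 / 16) (by norm_num) hΩ hseg
        refine ⟨_, tf (1 / 16) δ, ⟨contDiff_tf (by norm_num) δ, hsup⟩, ?_, rfl⟩
        intro h0
        have hI := tf_integrals (η := 1 / 16) (by norm_num) δ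
        have hJ := int_phi_scaled_pos (η := 1 / 16) (by norm_num) (by norm_num) hδ
        have h5 := hI.1
        rw [h0] at h5
        simp only [Pi.zero_apply, mul_zero, integral_zero] at h5
        have h6 := int_phi (η := 1 / 16) (by norm_num)
        have h7 : 0 < (∫ x, phi (1 / 16) x * phi (1 / 16) x) *
            ∫ y, phi (1 / 16) (y / δ) * phi (1 / 16) (y / δ) := by
          apply mul_pos _ hJ
          linarith
        linarith
      · rintro r ⟨f, hf, hf0, rfl⟩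
        obtain ⟨hW, hae⟩ := C1c_W0 hbd hf hf0
        exact (W0_strict hlam hbd hthin hW hae).2.2.2.2.le
  refine ⟨hval, ?_⟩
  intro f g hW hae
  rw [hval]
  exact (W0_strict hlam hbd hthin hW hae).2.2.2.2

end Pool.Agent.K1H92.AZS
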