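import Mathlib

/-! A `C^1` function with compact support in `(-1, 1)` and Rayleigh quotient close to `π²/4`. -/

set_option autoImplicit false

open MeasureTheory Set Filter Topology

namespace Pool.Agent.K1H92.AZS

/-- the positive part of `cos (π x / 2) - η` -/
noncomputable def mp (η x : ℝ) : ℝ := max (Real.cos (Real.pi / 2 * x) - η) 0

/-- the test function -/
noncomputable def phi (η x : ℝ) : ℝ :=
  if |x| < 1 then (mp η x) ^ 2 / Real.cos (Real.pi / 2 * x) else 0

/-- its derivative -/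
noncomputable def dphi (η x : ℝ) : ℝ :=
  if |x| < 1 then
    -(Real.pi / 2 * Real.sin (Real.pi / 2 * x)) *
      (mp η x * (2 * Real.cos (Real.pi / 2 * x) - mp η x) / Real.cos (Real.pi / 2 * x) ^ 2)
  else 0

theorem hasDerivAt_maxsq (x : ℝ) : HasDerivAt (fun y : ℝ => (max y 0) ^ 2) (2 * max x 0) x := by
  rcases lt_trichotomy x 0 with hx | hx | hx
  · rw [max_eq_right hx.le, mul_zero]
    apply (hasDerivAt_const x (0 : ℝ)).congr_of_eventuallyEq
    filter_upwards [Iio_mem_nhds hx] with y hy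
    rw [max_eq_right (le_of_lt hy)]
    norm_num
  · subst hx
    rw [max_self, mul_zero, hasDerivAt_iff_isLittleO_nhds_zero]
    have h1 : (fun h : ℝ => (max (0 + h) 0) ^ 2 - (max (0 : ℝ) 0) ^ 2 - h • (0 : ℝ)) =O[𝓝 0]
        fun h : ℝ => h ^ 2 := by
      apply Asymptotics.IsBigO.of_bound 1
      filter_upwards with h
      simp only [zero_add, max_self, smul_zero, sub_zero, one_mul, Real.norm_eq_abs]
      have : |max h 0| ≤ |h| := by
        rcases le_total h 0 with h0 | h0
        · rw [max_eq_right h0]; simp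
        · rw [max_eq_left h0]
      have e0 : |max h 0 ^ 2 - (0:ℝ) ^ 2| = |max h 0| ^ 2 := by
        rw [zero_pow two_ne_zero, sub_zero, abs_pow]
      rw [e0, abs_pow]
      exact pow_le_pow_left₀ (abs_nonneg _) this 2
    apply h1.trans_isLittleO
    have := Asymptotics.isLittleO_pow_id (𝕜 := ℝ) (n := 2) (by norm_num)
    exact this
  · rw [max_eq_left hx.le]
    have h1 := (hasDerivAt_pow 2 x)
    have h2 : HasDerivAt (fun y : ℝ => y ^ 2) (2 * x) x := by simpa using h1
    apply h2.congr_of_eventuallyEq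
    filter_upwards [Ioi_mem_nhds hx] with y hy
    rw [max_eq_left (le_of_lt hy)]

theorem cos_pos' {x : ℝ} (hx : |x| < 1) : 0 < Real.cos (Real.pi / 2 * x) := by
  have h := abs_lt.mp hx
  have hpi := Real.pi_pos
  apply Real.cos_pos_of_mem_Ioo
  constructor <;> nlinarith

theorem hasDerivAt_phi_in {η x : ℝ} (hx : |x| < 1) : HasDerivAt (phi η) (dphi η x) x := by
  have hc := cos_pos' hx
  have h1 : HasDerivAt (fun y : ℝ => Real.cos (Real.pi / 2 * y))
      (-Real.sin (Real.pi / 2 * x) * (Real.pi / 2)) x := by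
    have := ((hasDerivAt_id x).const_mul (Real.pi / 2)).cos
    simpa using this
  have h2 : HasDerivAt (fun y : ℝ => (mp η y) ^ 2)
      (2 * mp η x * (-Real.sin (Real.pi / 2 * x) * (Real.pi / 2))) x := by
    have := (hasDerivAt_maxsq (Real.cos (Real.pi / 2 * x) - η)).comp x (h1.sub_const η)
    exact this
  have h3 := h2.div h1 hc.ne'
  have h4 : phi η =ᶠ[𝓝 x] fun y => (mp η y) ^ 2 / Real.cos (Real.pi / 2 * y) := by
    have : {y : ℝ | |y| < 1} ∈ 𝓝 x := (isOpen_lt continuous_abs continuous_const).mem_nhds hx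
    filter_upwards [this] with y hy
    have hy' : |y| < 1 := hy
    simp [phi, hy']
  refine (h3.congr_of_eventuallyEq h4).congr_deriv ?_
  simp only [dphi, hx, if_true]
  field_simp
  ring

theorem zero_near {η x : ℝ} (hη : 0 < η) (hx : 1 ≤ |x|) :
    ∀ᶠ y in 𝓝 x, phi η y = 0 ∧ dphi η y = 0 := by
  rcases hx.lt_or_eq with h | h
  · have : {y : ℝ | 1 < |y|} ∈ 𝓝 x := (isOpen_lt continuous_const continuous_abs).mem_nhds h
    filter_upwards [this] with y hy
    have hy' : ¬ |y| < 1 := not_lt.mpr (le_of_lt hy)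
    simp [phi, dphi, hy']
  · have hc : Real.cos (Real.pi / 2 * x) = 0 := by
      rcases abs_cases x with ⟨h1, _⟩ | ⟨h1, _⟩
      · rw [h1] at h; rw [← h, mul_one]; exact Real.cos_pi_div_two
      · rw [h1] at h
        have : x = -1 := by linarith
        rw [this, mul_neg, mul_one, Real.cos_neg]; exact Real.cos_pi_div_two
    have : {y : ℝ | Real.cos (Real.pi / 2 * y) < η} ∈ 𝓝 x := by
      apply (isOpen_lt (by fun_prop) continuous_const).mem_nhds
      simp only [Set.mem_ofPred_eq]
      rw [hc]; exact hη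
    filter_upwards [this] with y hy
    have hm : mp η y = 0 := by
      unfold mp
      apply max_eq_right
      have : Real.cos (Real.pi / 2 * y) < η := hy
      linarith
    simp [phi, dphi, hm]

theorem hasDerivAt_phi {η : ℝ} (hη : 0 < η) (x : ℝ) : HasDerivAt (phi η) (dphi η x) x := by
  rcases lt_or_ge |x| 1 with hx | hx
  · exact hasDerivAt_phi_in hx
  · have h := zero_near hη hx
    rw [h.self_of_nhds.2]
    exact (hasDerivAt_const x (0 : ℝ)).congr_of_eventuallyEq (h.mono fun y hy => hy.1)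

theorem continuous_dphi {η : ℝ} (hη : 0 < η) : Continuous (dphi η) := by
  rw [continuous_iff_continuousAt]
  intro x
  rcases lt_or_ge |x| 1 with hx | hx
  · have hc := cos_pos' hx
    have h4 : dphi η =ᶠ[𝓝 x] fun y => -(Real.pi / 2 * Real.sin (Real.pi / 2 * y)) *
      (mp η y * (2 * Real.cos (Real.pi / 2 * y) - mp η y) / Real.cos (Real.pi / 2 * y) ^ 2) := by
      have : {y : ℝ | |y| < 1} ∈ 𝓝 x := (isOpen_lt continuous_abs continuous_const).mem_nhds hx
      filter_upwards [this] with y hy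
      have hy' : |y| < 1 := hy
      simp [dphi, hy']
    apply ContinuousAt.congr _ h4.symm
    have hmp : Continuous (mp η) := by unfold mp; fun_prop
    apply ContinuousAt.mul (by fun_prop)
    apply ContinuousAt.div (by fun_prop) (by fun_prop)
    positivity
  · have h := zero_near hη hx
    have h5 : dphi η =ᶠ[𝓝 x] fun _ => (0 : ℝ) := h.mono fun y hy => hy.2
    exact (continuousAt_const (y := (0:ℝ))).congr h5.symm

theorem contDiff_phi {η : ℝ} (hη : 0 < η) : ContDiff ℝ 1 (phi η) := by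
  rw [contDiff_one_iff_deriv]
  refine ⟨fun x => (hasDerivAt_phi hη x).differentiableAt, ?_⟩
  have : deriv (phi η) = dphi η := funext fun x => (hasDerivAt_phi hη x).deriv
  rw [this]
  exact continuous_dphi hη

theorem tsupport_phi {η : ℝ} (hη : 0 < η) : tsupport (phi η) ⊆ {x | |x| < 1} := by
  intro x hx
  by_contra hcon
  have hx1 : 1 ≤ |x| := not_lt.mp hcon
  have h := (zero_near hη hx1).mono fun y hy => hy.1
  exact (notMem_tsupport_iff_eventuallyEq.mpr h) hx

theorem mp_nonneg (η x : ℝ) : 0 ≤ mp η x := le_max_right _ _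

theorem mp_le {η x : ℝ} (hη : 0 < η) (hx : |x| < 1) : mp η x ≤ Real.cos (Real.pi / 2 * x) := by
  have := cos_pos' hx
  unfold mp
  apply max_le <;> linarith

theorem dphi_sq_le {η x : ℝ} (hη : 0 < η) (hx : |x| < 1) :
    dphi η x ^ 2 ≤ Real.pi ^ 2 / 4 * Real.sin (Real.pi / 2 * x) ^ 2 := by
  have hc := cos_pos' hx
  have h1 := mp_nonneg η x
  have h2 := mp_le hη hx
  simp only [dphi, hx, if_true]
  set u := Real.cos (Real.pi / 2 * x)
  set m := mp η x
  have h3 : 0 ≤ m * (2 * u - m) / u ^ 2 := by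
    apply div_nonneg _ (by positivity)
    apply mul_nonneg h1; linarith
  have h4 : m * (2 * u - m) / u ^ 2 ≤ 1 := by
    rw [div_le_one (by positivity)]
    nlinarith [sq_nonneg (u - m)]
  have h5 : (m * (2 * u - m) / u ^ 2) ^ 2 ≤ 1 := by nlinarith
  have h6 : 0 ≤ Real.pi ^ 2 / 4 * Real.sin (Real.pi / 2 * x) ^ 2 := by positivity
  calc (-(Real.pi / 2 * Real.sin (Real.pi / 2 * x)) * (m * (2 * u - m) / u ^ 2)) ^ 2
      = (Real.pi ^ 2 / 4 * Real.sin (Real.pi / 2 * x) ^ 2) * (m * (2 * u - m) / u ^ 2) ^ 2 := by ring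
    _ ≤ (Real.pi ^ 2 / 4 * Real.sin (Real.pi / 2 * x) ^ 2) * 1 := mul_le_mul_of_nonneg_left h5 h6
    _ = _ := by ring

theorem phi_sq_ge {η x : ℝ} (hη : 0 < η) (hx : |x| < 1) :
    Real.cos (Real.pi / 2 * x) ^ 2 - 4 * η ≤ phi η x ^ 2 := by
  have hc := cos_pos' hx
  have hc1 := Real.cos_le_one (Real.pi / 2 * x)
  have hval : phi η x = (mp η x) ^ 2 / Real.cos (Real.pi / 2 * x) := by simp [phi, hx]
  have h1 : Real.cos (Real.pi / 2 * x) - 2 * η ≤ phi η x := by
    rw [hval, le_div_iff₀ hc]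
    unfold mp
    set u := Real.cos (Real.pi / 2 * x)
    rcases le_total (u - η) 0 with h | h
    · rw [max_eq_right h]; nlinarith
    · rw [max_eq_left h]; nlinarith [sq_nonneg η]
  have h0 : 0 ≤ phi η x := by rw [hval]; positivity
  set u := Real.cos (Real.pi / 2 * x)
  rcases le_total (u - 2 * η) 0 with h | h
  · nlinarith [sq_nonneg (phi η x)]
  · nlinarith

end Pool.Agent.K1H92.AZS
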