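import Pool.Agent.K1H92.AZS.Test1D
import Pool.Agent.K1H92.AZS.Limits

/-! Two dimensional test functions. -/

set_option autoImplicit false

open MeasureTheory Set Filter Topology

namespace Pool.Agent.K1H92.AZS

theorem integral_cos_sq_unit : ∫ x in (-1 : ℝ)..1, Real.cos (Real.pi / 2 * x) ^ 2 = 1 := by
  have h := intervalIntegral.integral_comp_mul_left (a := -1) (b := 1)
    (fun y => Real.cos y ^ 2) (c := Real.pi / 2) (by positivity)
  rw [h, integral_cos_sq]
  have e1 : Real.pi / 2 * -1 = -(Real.pi / 2) := by ring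
  rw [e1, mul_one, Real.cos_neg, Real.cos_pi_div_two]
  have := Real.pi_pos
  simp only [smul_eq_mul]
  field_simp
  ring

theorem integral_sin_sq_unit : ∫ x in (-1 : ℝ)..1, Real.sin (Real.pi / 2 * x) ^ 2 = 1 := by
  have h := intervalIntegral.integral_comp_mul_left (a := -1) (b := 1)
    (fun y => Real.sin y ^ 2) (c := Real.pi / 2) (by positivity)
  rw [h, integral_sin_sq]
  have e1 : Real.pi / 2 * -1 = -(Real.pi / 2) := by ring
  rw [e1, mul_one, Real.cos_neg, Real.cos_pi_div_two]
  have := Real.pi_pos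
  simp only [smul_eq_mul]
  field_simp
  ring

theorem integral_eq_unit (u : ℝ → ℝ) (h0 : ∀ x, ¬ |x| < 1 → u x = 0) :
    ∫ x, u x = ∫ x in (-1 : ℝ)..1, u x := by
  rw [intervalIntegral.integral_of_le (by norm_num), integral_Ioc_eq_integral_Ioo,
    setIntegral_eq_integral_of_forall_compl_eq_zero]
  intro x hx
  apply h0
  intro h
  apply hx
  rw [abs_lt] at h
  exact ⟨h.1, h.2⟩

theorem int_dphi {η : ℝ} (hη : 0 < η) : ∫ x, dphi η x * dphi η x ≤ Real.pi ^ 2 / 4 := by
  rw [integral_eq_unit (fun x => dphi η x * dphi η x) (fun x hx => by simp [dphi, hx])]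
  have h1 : ∫ x in (-1 : ℝ)..1, dphi η x * dphi η x ≤
      ∫ x in (-1 : ℝ)..1, Real.pi ^ 2 / 4 * Real.sin (Real.pi / 2 * x) ^ 2 := by
    apply intervalIntegral.integral_mono_on_of_le_Ioo (by norm_num)
    · exact ((continuous_dphi hη).mul (continuous_dphi hη)).intervalIntegrable _ _
    · apply Continuous.intervalIntegrable; fun_prop
    · intro x hx
      have := dphi_sq_le (x := x) hη (abs_lt.mpr ⟨hx.1, hx.2⟩)
      nlinarith
  rw [intervalIntegral.integral_const_mul, integral_sin_sq_unit, mul_one] at h1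
  exact h1

theorem int_phi {η : ℝ} (hη : 0 < η) : 1 - 8 * η ≤ ∫ x, phi η x * phi η x := by
  rw [integral_eq_unit (fun x => phi η x * phi η x) (fun x hx => by simp [phi, hx])]
  have h1 : ∫ x in (-1 : ℝ)..1, (Real.cos (Real.pi / 2 * x) ^ 2 - 4 * η) ≤
      ∫ x in (-1 : ℝ)..1, phi η x * phi η x := by
    apply intervalIntegral.integral_mono_on_of_le_Ioo (by norm_num)
    · apply Continuous.intervalIntegrable; fun_prop
    · exact ((contDiff_phi hη).continuous.mul (contDiff_phi hη).continuous).intervalIntegrable _ _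
    · intro x hx
      have := phi_sq_ge (x := x) hη (abs_lt.mpr ⟨hx.1, hx.2⟩)
      nlinarith
  rw [intervalIntegral.integral_sub (by apply Continuous.intervalIntegrable; fun_prop)
    (by apply Continuous.intervalIntegrable; fun_prop), integral_cos_sq_unit,
    intervalIntegral.integral_const] at h1
  simp only [smul_eq_mul] at h1
  linarith

/-- integrals of products over the plane -/
theorem integral_prod2 (u v : ℝ → ℝ) :
    ∫ x : E 2, u (x 0) * v (x 1) = (∫ x, u x) * ∫ x, v x := by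
  have h1 := (PiLp.volume_preserving_ofLp (Fin 2)).integral_comp
    (MeasurableEquiv.toLp 2 (Fin 2 → ℝ)).symm.measurableEmbedding
    (fun y : Fin 2 → ℝ => u (y 0) * v (y 1))
  have h2 := integral_fintype_prod_volume_eq_prod (ι := Fin 2) (𝕜 := ℝ) (E := fun _ => ℝ)
    (fun i => if i = 0 then u else v)
  simp only [Fin.prod_univ_two] at h2
  simp only [if_true, one_ne_zero, if_false] at h2
  rw [← h2, ← h1]

/-- the planar test function -/
noncomputable def tf (η δ : ℝ) (x : E 2) : ℝ := phi η (x 0) * phi η (x 1 / δ)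

theorem contDiff_tf {η : ℝ} (hη : 0 < η) (δ : ℝ) : ContDiff ℝ 1 (tf η δ) := by
  unfold tf
  apply ContDiff.mul
  · exact (contDiff_phi hη).comp (by fun_prop)
  · exact (contDiff_phi hη).comp (by fun_prop)

theorem tf_grad0 {η : ℝ} (hη : 0 < η) (δ : ℝ) (x : E 2) :
    gradient (tf η δ) x 0 = dphi η (x 0) * phi η (x 1 / δ) := by
  have h1 := gradient_inner (tf η δ) x (EuclideanSpace.single 0 1)
  rw [EuclideanSpace.inner_single_right] at h1
  simp only [conj_trivial, one_mul] at h1
  rw [h1]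
  let p0 : E 2 →L[ℝ] ℝ := EuclideanSpace.proj (𝕜 := ℝ) 0
  let p1 : E 2 →L[ℝ] ℝ := EuclideanSpace.proj (𝕜 := ℝ) 1
  have hp0 : HasFDerivAt (fun y : E 2 => y 0) p0 x := p0.hasFDerivAt
  have hp1 : HasFDerivAt (fun y : E 2 => y 1) p1 x := p1.hasFDerivAt
  have hp1' : HasFDerivAt (fun y : E 2 => y 1 / δ) (δ⁻¹ • p1) x := by
    have := hp1.const_mul δ⁻¹
    refine this.congr_of_eventuallyEq ?_
    filter_upwards with y
    rw [div_eq_inv_mul]
  have h2 := (hasDerivAt_phi hη (x 0)).comp_hasFDerivAt x hp0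
  have h3 := (hasDerivAt_phi hη (x 1 / δ)).comp_hasFDerivAt x hp1'
  have h4 := h2.mul h3
  have h5 : fderiv ℝ (tf η δ) x = _ := h4.fderiv
  rw [h5]
  simp only [_root_.add_apply, _root_.smul_apply, smul_eq_mul, Function.comp_apply]
  have e0 : p0 (EuclideanSpace.single 0 1) = 1 := by
    show (EuclideanSpace.single (0 : Fin 2) (1 : ℝ)) 0 = 1
    simp
  have e1 : p1 (EuclideanSpace.single 0 1) = 0 := by
    show (EuclideanSpace.single (0 : Fin 2) (1 : ℝ)) 1 = 0
    simp
  rw [e0, e1]
  ring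

/-- the support of the test function is small -/
theorem exists_delta {η : ℝ} (hη : 0 < η) {Ω : Set (E 2)} (hΩ : IsOpen Ω)
    (hseg : ∀ x : E 2, |x 0| < 1 → x 1 = 0 → x ∈ Ω) :
    ∃ δ, 0 < δ ∧ tsupport (tf η δ) ⊆ Ω := by
  set K : Set ℝ := tsupport (phi η) with hK
  have hKsub := tsupport_phi hη
  have hKc : IsCompact K := by
    apply Metric.isCompact_of_isClosed_isBounded (isClosed_tsupport _)
    apply (Metric.isBounded_Icc (-1 : ℝ) 1).subset
    intro x hx
    have h1 : |x| < 1 := hKsub hx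
    exact ⟨(abs_lt.mp h1).1.le, (abs_lt.mp h1).2.le⟩
  let m : ℝ × ℝ → E 2 := fun z => !₂[z.1, z.2]
  have hm : Continuous m := by
    show Continuous (fun z : ℝ × ℝ => (WithLp.toLp 2 ![z.1, z.2] : E 2))
    apply (PiLp.continuous_toLp 2 _).comp
    apply continuous_pi
    intro i
    fin_cases i
    · exact continuous_fst
    · exact continuous_snd
  have hO : IsOpen (m ⁻¹' Ω) := hΩ.preimage hm
  have hsub : K ×ˢ ({0} : Set ℝ) ⊆ m ⁻¹' Ω := by
    rintro ⟨s, t⟩ ⟨hs, ht⟩
    have ht0 : t = 0 := ht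
    subst ht0
    apply hseg
    · have : |s| < 1 := hKsub hs
      simpa [m] using this
    · simp [m]
  obtain ⟨U, V, hU, hV, hKU, h0V, hUV⟩ := generalized_tube_lemma hKc isCompact_singleton hO hsub
  obtain ⟨r, hr, hrV⟩ := Metric.isOpen_iff.mp hV 0 (h0V rfl)
  refine ⟨r / 2, by positivity, ?_⟩
  have hcl : IsClosed {x : E 2 | x 0 ∈ K ∧ |x 1| ≤ r / 2} := by
    have c0 : Continuous (fun x : E 2 => x 0) := by fun_prop
    have c1 : Continuous (fun x : E 2 => |x 1|) := by fun_prop
    exact ((isClosed_tsupport (phi η)).preimage c0).inter (isClosed_le c1 continuous_const)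
  have hss : Function.support (tf η (r / 2)) ⊆ {x : E 2 | x 0 ∈ K ∧ |x 1| ≤ r / 2} := by
    intro x hx
    have hx' : phi η (x 0) * phi η (x 1 / (r / 2)) ≠ 0 := hx
    refine ⟨subset_tsupport _ (left_ne_zero_of_mul hx'), ?_⟩
    have h1 := hKsub (subset_tsupport _ (right_ne_zero_of_mul hx'))
    have h2 : |x 1 / (r / 2)| < 1 := h1
    rw [abs_div, abs_of_pos (by positivity : (0:ℝ) < r / 2), div_lt_one (by positivity)] at h2
    exact h2.le
  intro x hx
  have h1 := closure_minimal hss hcl hx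
  have h2 : (x 0, x 1) ∈ U ×ˢ V := by
    refine ⟨hKU h1.1, hrV ?_⟩
    rw [Metric.mem_ball, dist_zero_right, Real.norm_eq_abs]
    have := h1.2
    linarith
  have h3 := hUV h2
  have h4 : m (x 0, x 1) = x := by
    ext i
    fin_cases i <;> simp [m]
  have h5 : m (x 0, x 1) ∈ Ω := h3
  rwa [h4] at h5

theorem tf_integrals {η : ℝ} (hη : 0 < η) (δ : ℝ) :
    (∫ x, tf η δ x * tf η δ x) = (∫ x, phi η x * phi η x) * ∫ y, phi η (y / δ) * phi η (y / δ) ∧
    (∫ x, gradient (tf η δ) x 0 * gradient (tf η δ) x 0) =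
      (∫ x, dphi η x * dphi η x) * ∫ y, phi η (y / δ) * phi η (y / δ) := by
  constructor
  · rw [← integral_prod2 (fun s => phi η s * phi η s) (fun y => phi η (y / δ) * phi η (y / δ))]
    apply integral_congr_ae
    filter_upwards with x
    unfold tf
    ring
  · rw [← integral_prod2 (fun s => dphi η s * dphi η s) (fun y => phi η (y / δ) * phi η (y / δ))]
    apply integral_congr_ae
    filter_upwards with x
    rw [tf_grad0 hη]
    ring

theorem int_phi_scaled_pos {η : ℝ} (hη : 0 < η) (hη8 : η < 1 / 8) {δ : ℝ} (hδ : 0 < δ) :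
    0 < ∫ y, phi η (y / δ) * phi η (y / δ) := by
  have h := MeasureTheory.Measure.integral_comp_div (fun y => phi η y * phi η y) δ
  rw [h, smul_eq_mul, abs_of_pos hδ]
  have := int_phi hη
  apply mul_pos hδ
  linarith

end Pool.Agent.K1H92.AZS
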